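import Pool.Agent.H557.Final

/-!
The almost-all version: outside at most `K^(2/3+ε)` integers `k ∈ [K, 2K]`.
-/

namespace Pool.Agent.H557

open Finset Filter Topology

theorem almost_all {c : ℝ} (hc0 : 0 < c) (hc1 : c ≤ 1)
    (hwin : ∀ K H L W : ℕ, 2 ≤ K → 1 ≤ H → 1 ≤ L → 1 ≤ W →
    ((L : ℝ) * W) ^ 2 * H ^ 3 * Real.log K ≤ c * K →
    ∃ E : Finset ℕ, E.card ≤ L * W ∧ ∀ k, K ≤ k → k ≤ K + H → k ∉ E →
      ∀ q : ℕ, 1 ≤ q → Real.log q ≤ c * K →
        ∀ (ρ : ℕ) (D : Finset ℕ) (w : ℕ → ZMod 2), D.card ≤ L → (∀ d ∈ D, 5 * d ≤ K) →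
          ∀ x N : ℕ, (q : ℝ) * Real.exp (8 * K) ≤ N →
          |2 ^ D.card * q * ((((Finset.Ico x (x + N)).filter (Pat k q ρ D w)).card : ℝ) / N) - 1| ≤
            2 ^ D.card * Real.exp (-(c * W / Real.log K)))
    (ε : ℝ) (hε0 : 0 < ε) (hε1 : ε ≤ 1) :
    ∃ K₀ : ℕ, ∀ K : ℕ, K₀ ≤ K →
      ∃ E : Finset ℕ, (E.card : ℝ) ≤ (K : ℝ) ^ (2 / 3 + ε) ∧ ∀ k, K ≤ k → k ≤ 2 * K → k ∉ E →
      ∀ q : ℕ, 1 ≤ q → Real.log q ≤ c * K →
        ∀ (ρ : ℕ) (D : Finset ℕ) (w : ℕ → ZMod 2), (D.card : ℝ) ≤ (K : ℝ) ^ (ε / 12) →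
          (∀ d ∈ D, 5 * d ≤ K) →
          ∀ x N : ℕ, (q : ℝ) * Real.exp (16 * K) ≤ N →
          |2 ^ D.card * q * ((((Finset.Ico x (x + N)).filter (Pat k q ρ D w)).card : ℝ) / N) - 1| ≤
            Real.exp (-((K : ℝ) ^ (ε / 12))) := by
  set δ : ℝ := ε / 12 with hδ
  have hδ0 : 0 < δ := by positivity
  have hδ1 : δ ≤ 1 / 12 := by rw [hδ]; linarith
  -- the growth condition
  have hev : ∀ᶠ x : ℝ in atTop, 8 * Real.log x ≤ c * x ^ δ := by
    have h1 := isLittleO_log_rpow_atTop hδ0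
    have h2 := h1.bound (show (0 : ℝ) < c / 8 by positivity)
    filter_upwards [h2, eventually_ge_atTop (1 : ℝ)] with x hx hx1
    rw [Real.norm_eq_abs, Real.norm_eq_abs, abs_of_nonneg (Real.log_nonneg hx1),
      abs_of_nonneg (Real.rpow_nonneg (by linarith) _)] at hx
    linarith
  obtain ⟨X, hX⟩ := eventually_atTop.mp hev
  refine ⟨max 2 (⌈X⌉₊), ?_⟩
  intro K hK
  have hK2 : 2 ≤ K := (le_max_left _ _).trans hK
  have hKX : X ≤ (K : ℝ) := by
    have h1 : ⌈X⌉₊ ≤ K := (le_max_right _ _).trans hK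
    exact (Nat.le_ceil X).trans (by exact_mod_cast h1)
  have hgrow := hX (K : ℝ) hKX
  have hK2r : (2 : ℝ) ≤ K := by exact_mod_cast hK2
  have hK1r : (1 : ℝ) ≤ K := by linarith
  have hK0r : (0 : ℝ) < K := by linarith
  have hlogK2 : Real.log 2 ≤ Real.log K := Real.log_le_log (by norm_num) hK2r
  have hlog2 : (0.69 : ℝ) ≤ Real.log 2 := by
    have := Real.log_two_gt_d9
    linarith
  have hlog2K : Real.log (2 * K) ≤ 2 * Real.log K := by
    rw [Real.log_mul (by norm_num) hK0r.ne']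
    linarith
  set y : ℝ := (K : ℝ) ^ δ with hy
  have hy0 : 0 < y := Real.rpow_pos_of_pos hK0r _
  have hcy : 4 * Real.log (2 * K) ≤ c * y := by linarith
  have hy8 : 5 ≤ y := by
    have h1 : 5.5 ≤ c * y := by linarith
    have h2 : c * y ≤ 1 * y := mul_le_mul_of_nonneg_right hc1 hy0.le
    linarith
  -- powers of y
  have hyn : ∀ n : ℕ, y ^ n = (K : ℝ) ^ (n * δ) := by
    intro n
    rw [hy, ← Real.rpow_natCast, ← Real.rpow_mul hK0r.le]
    congr 1
    ring
  set L := ⌊y⌋₊ with hL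
  set W := ⌈y ^ 2⌉₊ with hW
  set z : ℝ := (K : ℝ) ^ (1 / 3 - 3 * δ) with hz
  have hz1 : 1 ≤ z := Real.one_le_rpow hK1r (by linarith)
  set H := ⌊z⌋₊ with hH
  have hL1 : 1 ≤ L := Nat.le_floor (by push_cast; linarith)
  have hLy : (L : ℝ) ≤ y := Nat.floor_le hy0.le
  have hy2 : 1 ≤ y ^ 2 := by nlinarith
  have hW1 : 1 ≤ W := Nat.one_le_iff_ne_zero.mpr (by
    intro h0
    have := Nat.le_ceil (y ^ 2)
    rw [← hW, h0] at this
    push_cast at this
    linarith)
  have hWy : y ^ 2 ≤ (W : ℝ) := Nat.le_ceil _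
  have hWy2 : (W : ℝ) ≤ 2 * y ^ 2 := by
    have := (Nat.ceil_lt_add_one (show 0 ≤ y ^ 2 by positivity)).le
    rw [← hW] at this
    linarith
  have hH1 : 1 ≤ H := Nat.le_floor (by push_cast; exact hz1)
  have hHz : (H : ℝ) ≤ z := Nat.floor_le (by linarith)
  have hHz2 : z ≤ 2 * H := by
    have h1 := (Nat.lt_floor_add_one z).le
    rw [← hH] at h1
    have h2 : (1 : ℝ) ≤ H := by exact_mod_cast hH1
    linarith
  -- z^3 * y^9 = K
  have hzy : z ^ 3 * y ^ 9 = K := by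
    rw [hyn 9, hz, ← Real.rpow_natCast, ← Real.rpow_mul hK0r.le, ← Real.rpow_add hK0r]
    have : (1 / 3 - 3 * δ) * ((3 : ℕ) : ℝ) + ((9 : ℕ) : ℝ) * δ = 1 := by push_cast; ring
    rw [this, Real.rpow_one]
  have hz0 : 0 ≤ z := by linarith
  have hcond : ∀ K' : ℕ, K ≤ K' → K' ≤ 2 * K →
      ((L : ℝ) * W) ^ 2 * H ^ 3 * Real.log K' ≤ c * K' := by
    intro K' h1 h2
    have h1r : (K : ℝ) ≤ K' := by exact_mod_cast h1
    have h2r : (K' : ℝ) ≤ 2 * K := by exact_mod_cast h2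
    have h3 : (L : ℝ) * W ≤ y * (2 * y ^ 2) :=
      mul_le_mul hLy hWy2 (Nat.cast_nonneg _) hy0.le
    have h4 : ((L : ℝ) * W) ^ 2 ≤ (y * (2 * y ^ 2)) ^ 2 := pow_le_pow_left₀ (by positivity) h3 2
    have h5 : (H : ℝ) ^ 3 ≤ z ^ 3 := pow_le_pow_left₀ (Nat.cast_nonneg _) hHz 3
    have h6 : ((L : ℝ) * W) ^ 2 * H ^ 3 ≤ (y * (2 * y ^ 2)) ^ 2 * z ^ 3 :=
      mul_le_mul h4 h5 (by positivity) (by positivity)
    have h7 : Real.log K' ≤ Real.log (2 * K) := Real.log_le_log (by linarith) h2r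
    have h8 : 0 ≤ Real.log K' := Real.log_nonneg (by linarith)
    calc ((L : ℝ) * W) ^ 2 * H ^ 3 * Real.log K'
        ≤ ((y * (2 * y ^ 2)) ^ 2 * z ^ 3) * Real.log (2 * K) :=
          mul_le_mul h6 h7 h8 (by positivity)
      _ = (y ^ 6 * z ^ 3) * (4 * Real.log (2 * K)) := by ring
      _ ≤ (y ^ 6 * z ^ 3) * (c * y) := mul_le_mul_of_nonneg_left hcy (by positivity)
      _ = c * (z ^ 3 * y ^ 7) := by ring
      _ ≤ c * (z ^ 3 * y ^ 9) := by
          apply mul_le_mul_of_nonneg_left _ hc0.le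
          apply mul_le_mul_of_nonneg_left _ (by positivity)
          exact pow_le_pow_right₀ (by linarith) (by norm_num)
      _ = c * K := by rw [hzy]
      _ ≤ c * K' := mul_le_mul_of_nonneg_left h1r hc0.le
  -- windows
  set J := K / H with hJ
  have hJH : J * H ≤ K := Nat.div_mul_le_self K H
  have hJH2 : K < (J + 1) * H := by
    have := Nat.lt_div_mul_add hH1 (a := K)
    rw [add_mul, one_mul]
    exact this
  have hch : ∀ j : ℕ, ∃ E : Finset ℕ, j ≤ J → (E.card ≤ L * W ∧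
      ∀ k, K + j * H ≤ k → k ≤ K + j * H + H → k ∉ E →
      ∀ q : ℕ, 1 ≤ q → Real.log q ≤ c * (K + j * H : ℕ) →
        ∀ (ρ : ℕ) (D : Finset ℕ) (w : ℕ → ZMod 2), D.card ≤ L → (∀ d ∈ D, 5 * d ≤ K + j * H) →
          ∀ x N : ℕ, (q : ℝ) * Real.exp (8 * (K + j * H : ℕ)) ≤ N →
          |2 ^ D.card * q * ((((Finset.Ico x (x + N)).filter (Pat k q ρ D w)).card : ℝ) / N) - 1| ≤
            2 ^ D.card * Real.exp (-(c * W / Real.log (K + j * H : ℕ)))) := by
    intro j
    by_cases hj : j ≤ J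
    · have hjH : j * H ≤ K := (Nat.mul_le_mul_right H hj).trans hJH
      obtain ⟨E, hE1, hE2⟩ := hwin (K + j * H) H L W (by omega) hH1 hL1 hW1
        (hcond _ (by omega) (by omega))
      exact ⟨E, fun _ => ⟨hE1, hE2⟩⟩
    · exact ⟨∅, fun h => absurd h hj⟩
  choose E hE using hch
  refine ⟨(Finset.range (J + 1)).biUnion E, ?_, ?_⟩
  · -- cardinality
    have h1 : ((Finset.range (J + 1)).biUnion E).card ≤ (J + 1) * (L * W) := by
      refine Finset.card_biUnion_le.trans ?_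
      calc ∑ j ∈ Finset.range (J + 1), (E j).card ≤ ∑ _j ∈ Finset.range (J + 1), L * W := by
            refine Finset.sum_le_sum fun j hj => ?_
            exact (hE j (by have := Finset.mem_range.mp hj; omega)).1
        _ = (J + 1) * (L * W) := by rw [Finset.sum_const, Finset.card_range, smul_eq_mul]
    have h2 : (((Finset.range (J + 1)).biUnion E).card : ℝ) ≤ ((J : ℝ) + 1) * (L * W) := by
      exact_mod_cast h1
    have hJr : (J : ℝ) * H ≤ K := by exact_mod_cast hJH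
    have hHr : (1 : ℝ) ≤ H := by exact_mod_cast hH1
    have hHK : (H : ℝ) ≤ K := by
      refine hHz.trans ?_
      calc z ≤ (K : ℝ) ^ (1 : ℝ) := Real.rpow_le_rpow_of_exponent_le hK1r (by linarith)
        _ = K := Real.rpow_one _
    -- (J+1) * z ≤ 4 K
    have h3 : ((J : ℝ) + 1) * z ≤ 4 * K := by
      have : ((J : ℝ) + 1) * z ≤ (J + 1) * (2 * H) :=
        mul_le_mul_of_nonneg_left hHz2 (by positivity)
      nlinarith
    have h4 : (L : ℝ) * W ≤ 2 * y ^ 3 := by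
      have := mul_le_mul hLy hWy2 (Nat.cast_nonneg _) hy0.le
      calc (L : ℝ) * W ≤ y * (2 * y ^ 2) := this
        _ = 2 * y ^ 3 := by ring
    -- target
    have h5 : (K : ℝ) ^ (2 / 3 + ε) * z = K * y ^ 9 := by
      rw [hyn 9, hz, ← Real.rpow_add hK0r]
      nth_rewrite 2 [← Real.rpow_one (K : ℝ)]
      rw [← Real.rpow_add hK0r]
      congr 1
      rw [hδ]
      push_cast
      ring
    have h6 : (((Finset.range (J + 1)).biUnion E).card : ℝ) * z ≤ (K : ℝ) ^ (2 / 3 + ε) * z := by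
      rw [h5]
      calc (((Finset.range (J + 1)).biUnion E).card : ℝ) * z
          ≤ (((J : ℝ) + 1) * (L * W)) * z := mul_le_mul_of_nonneg_right h2 hz0
        _ = (((J : ℝ) + 1) * z) * (L * W) := by ring
        _ ≤ (4 * K) * (2 * y ^ 3) := mul_le_mul h3 h4 (by positivity) (by positivity)
        _ = K * (8 * y ^ 3) := by ring
        _ ≤ K * y ^ 9 := by
            apply mul_le_mul_of_nonneg_left _ hK0r.le
            have h7 : (5 : ℝ) ^ 6 ≤ y ^ 6 := pow_le_pow_left₀ (by norm_num) hy8 6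
            calc 8 * y ^ 3 ≤ y ^ 6 * y ^ 3 := by
                  apply mul_le_mul_of_nonneg_right _ (by positivity)
                  linarith [h7]
              _ = y ^ 9 := by ring
    exact le_of_mul_le_mul_right h6 (by linarith)
  · intro k hk1 hk2 hkE q hq hlogq ρ D w hDy hD5 x N hN
    -- find the window
    obtain ⟨j, hj⟩ : ∃ j, j = (k - K) / H := ⟨_, rfl⟩
    have hjJ : j ≤ J := by
      rw [hj, hJ]
      exact Nat.div_le_div_right (by omega)
    have hj1 : j * H ≤ k - K := by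
      rw [hj]
      exact Nat.div_mul_le_self _ _
    have hj2 : k - K < j * H + H := by
      rw [hj]
      exact Nat.lt_div_mul_add hH1
    have hkEj : k ∉ E j := by
      intro h
      exact hkE (Finset.mem_biUnion.mpr ⟨j, Finset.mem_range.mpr (by omega), h⟩)
    have hjH : j * H ≤ K := (Nat.mul_le_mul_right H hjJ).trans hJH
    have hDL : D.card ≤ L := Nat.le_floor hDy
    have hK'1 : (K : ℝ) ≤ ((K + j * H : ℕ) : ℝ) := by exact_mod_cast (by omega : K ≤ K + j * H)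
    have hK'2 : ((K + j * H : ℕ) : ℝ) ≤ 2 * K := by exact_mod_cast (by omega : K + j * H ≤ 2 * K)
    have hmain := (hE j hjJ).2 k (by omega) (by omega) hkEj q hq
      (hlogq.trans (mul_le_mul_of_nonneg_left hK'1 hc0.le)) ρ D w hDL
      (fun d hd => (hD5 d hd).trans (by omega)) x N (by
        refine le_trans ?_ hN
        apply mul_le_mul_of_nonneg_left _ (Nat.cast_nonneg _)
        apply Real.exp_le_exp.mpr
        linarith)
    refine hmain.trans ?_
    have hlogK' : Real.log ((K + j * H : ℕ) : ℝ) ≤ Real.log (2 * K) :=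
      Real.log_le_log (by linarith) hK'2
    have hlogK'0 : 0 < Real.log ((K + j * H : ℕ) : ℝ) := Real.log_pos (by linarith)
    have h1 : (2 : ℝ) ^ D.card ≤ Real.exp (y * 0.7) := by
      have h2 : (2 : ℝ) ≤ Real.exp 0.7 := by
        have h3 : Real.log 2 ≤ 0.7 := by
          have := Real.log_two_lt_d9
          linarith
        exact (Real.log_le_iff_le_exp (by norm_num)).mp h3
      calc (2 : ℝ) ^ D.card ≤ (Real.exp 0.7) ^ D.card := pow_le_pow_left₀ (by norm_num) h2 _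
        _ = Real.exp (D.card * 0.7) := by rw [← Real.exp_nat_mul]
        _ ≤ Real.exp (y * 0.7) := by
            apply Real.exp_le_exp.mpr
            linarith
    have h2 : 4 * y ≤ c * W / Real.log ((K + j * H : ℕ) : ℝ) := by
      rw [le_div_iff₀ hlogK'0]
      calc 4 * y * Real.log ((K + j * H : ℕ) : ℝ) ≤ 4 * y * Real.log (2 * K) :=
            mul_le_mul_of_nonneg_left hlogK' (by positivity)
        _ = y * (4 * Real.log (2 * K)) := by ring
        _ ≤ y * (c * y) := mul_le_mul_of_nonneg_left hcy hy0.le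
        _ = c * y ^ 2 := by ring
        _ ≤ c * W := mul_le_mul_of_nonneg_left hWy hc0.le
    calc (2 : ℝ) ^ D.card * Real.exp (-(c * W / Real.log ((K + j * H : ℕ) : ℝ)))
        ≤ Real.exp (y * 0.7) * Real.exp (-(4 * y)) := by
          apply mul_le_mul h1 _ (Real.exp_pos _).le (Real.exp_pos _).le
          apply Real.exp_le_exp.mpr
          linarith
      _ = Real.exp (y * 0.7 + -(4 * y)) := by rw [Real.exp_add]
      _ ≤ Real.exp (-y) := Real.exp_le_exp.mpr (by linarith)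

end Pool.Agent.H557
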