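import Pool.Agent.H557.TwoSided

/-!
Averaging over fibers of a function split at many primes.
-/

namespace Pool.Agent.H557

open Finset

/-- The sign character of `ZMod 2`. -/
def chi (a : ZMod 2) : ℝ := if a = 0 then 1 else -1

theorem chi_add (a b : ZMod 2) : chi (a + b) = chi a * chi b := by
  revert a b
  unfold chi
  have h : ∀ a b : ZMod 2, (a + b = 0) ↔ (a = b) := by decide
  intro a b
  have h2 : ∀ a : ZMod 2, a = 0 ∨ a = 1 := by decide
  rcases h2 a with rfl | rfl <;> rcases h2 b with rfl | rfl <;> simp [h]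

theorem chi_zero : chi 0 = 1 := by simp [chi]

theorem chi_sq (a : ZMod 2) : chi a * chi a = 1 := by
  unfold chi
  split_ifs <;> norm_num

theorem abs_chi (a : ZMod 2) : |chi a| = 1 := by
  unfold chi
  split_ifs <;> norm_num

theorem chi_sum {ι : Type*} (s : Finset ι) (f : ι → ZMod 2) :
    chi (∑ i ∈ s, f i) = ∏ i ∈ s, chi (f i) := by
  classical
  induction s using Finset.induction with
  | empty => simp [chi_zero]
  | insert a s ha ih => rw [Finset.sum_insert ha, Finset.prod_insert ha, chi_add, ih]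

/-- Shift invariance of sums over a period. -/
theorem sum_shift {P : ℕ} {f : ℤ → ℝ} (hf : ∀ n, f (n + P) = f n) (s : ℕ) :
    ∑ n ∈ Finset.range P, f ((n : ℤ) + s) = ∑ n ∈ Finset.range P, f (n : ℤ) := by
  induction s with
  | zero => simp
  | succ s ih =>
    rw [← ih]
    have h1 := Finset.sum_range_succ' (fun n : ℕ => f ((n : ℤ) + s)) P
    have h2 := Finset.sum_range_succ (fun n : ℕ => f ((n : ℤ) + s)) P
    rw [h1] at h2
    have h3 : f ((P : ℤ) + s) = f (((0 : ℕ) : ℤ) + s) := by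
      rw [add_comm (P : ℤ), hf]
      simp
    rw [h3] at h2
    have h4 := add_right_cancel h2
    rw [← h4]
    refine Finset.sum_congr rfl fun n _ => ?_
    congr 1
    push_cast
    ring

/-- Normalised fiber correlation. -/
noncomputable def mu (ψ : ℤ → ZMod 2) (ℓ Q : ℕ) (n : ℤ) : ℝ :=
  (∑ t ∈ Finset.range ℓ, chi (ψ (n + Q * t) - ψ n)) / ℓ

theorem mu_periodic {ψ : ℤ → ZMod 2} {ℓ Q : ℕ} (hs : ∀ n : ℤ, ψ (n + ℓ + Q) - ψ (n + ℓ) = ψ (n + Q) - ψ n)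
    (n : ℤ) : mu ψ ℓ Q (n + ℓ) = mu ψ ℓ Q n := by
  have key : ∀ t : ℕ, ψ (n + ℓ + Q * t) - ψ (n + ℓ) = ψ (n + Q * t) - ψ n := by
    intro t
    induction t with
    | zero => simp
    | succ t ih =>
      have h1 := hs (n + Q * t)
      rw [show n + (Q : ℤ) * t + ℓ + Q = n + ℓ + Q * ((t + 1 : ℕ) : ℤ) by push_cast; ring,
        show n + (Q : ℤ) * t + ℓ = n + ℓ + Q * (t : ℤ) by ring,
        show n + (Q : ℤ) * t + Q = n + Q * ((t + 1 : ℕ) : ℤ) by push_cast; ring] at h1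
      linear_combination h1 + ih
  unfold mu
  congr 1
  refine Finset.sum_congr rfl fun t _ => ?_
  rw [key]

theorem average_eq {P : ℕ} (ψ : ℤ → ZMod 2) (g : ℤ → ℝ) (T : Finset ℕ) (Qf : ℕ → ℕ)
    (hpos : ∀ ℓ ∈ T, 0 < ℓ) (hP : ∀ ℓ ∈ T, ℓ * Qf ℓ = P)
    (hdvd : ∀ ℓ ∈ T, ∀ ℓ' ∈ T, ℓ ≠ ℓ' → ℓ ∣ Qf ℓ')
    (hper : ∀ n, ψ (n + P) = ψ n)
    (hg2 : ∀ ℓ ∈ T, ∀ n, g (n + Qf ℓ) = g n)
    (hs : ∀ ℓ ∈ T, ∀ n : ℤ, ψ (n + ℓ + Qf ℓ) - ψ (n + ℓ) = ψ (n + Qf ℓ) - ψ n) :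
    ∑ n ∈ Finset.range P, g (n : ℤ) * chi (ψ n) =
      ∑ n ∈ Finset.range P, g (n : ℤ) * chi (ψ n) * ∏ ℓ ∈ T, mu ψ ℓ (Qf ℓ) n := by
  classical
  induction T using Finset.induction with
  | empty => simp
  | insert ℓ T ha ih =>
    have hmem : ℓ ∈ insert ℓ T := Finset.mem_insert_self _ _
    have hsub : ∀ {x}, x ∈ T → x ∈ insert ℓ T := fun hx => Finset.mem_insert_of_mem hx
    rw [ih (fun x hx => hpos x (hsub hx)) (fun x hx => hP x (hsub hx))
      (fun x hx y hy => hdvd x (hsub hx) y (hsub hy)) (fun x hx => hg2 x (hsub hx))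
      (fun x hx => hs x (hsub hx))]
    set G : ℤ → ℝ := fun n => g n * ∏ x ∈ T, mu ψ x (Qf x) n with hG
    -- G is invariant under shifts by multiples of Qf ℓ
    have hGinv : ∀ (n : ℤ) (t : ℕ), G (n + Qf ℓ * t) = G n := by
      intro n t
      simp only [hG]
      rw [periodic_mul (hg2 ℓ hmem) n t]
      congr 1
      refine Finset.prod_congr rfl fun x hx => ?_
      have hne : x ≠ ℓ := fun h => ha (h ▸ hx)
      obtain ⟨m, hm⟩ := hdvd x (hsub hx) ℓ hmem hne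
      rw [show (n : ℤ) + (Qf ℓ : ℤ) * t = n + (x : ℤ) * ((m * t : ℕ) : ℤ) by
        rw [hm]; push_cast; ring]
      exact periodic_mul (f := mu ψ x (Qf x)) (mu_periodic (hs x (hsub hx))) n (m * t)
    have hGP : ∀ n, G (n + P) = G n := by
      intro n
      have := hGinv n ℓ
      rw [show (Qf ℓ : ℤ) * (ℓ : ℤ) = (P : ℤ) by rw [← hP ℓ hmem]; push_cast; ring] at this
      exact this
    have hℓ0 : (ℓ : ℝ) ≠ 0 := by exact_mod_cast (hpos ℓ hmem).ne'
    have e1 : ∑ n ∈ Finset.range P, g (n : ℤ) * chi (ψ n) * ∏ x ∈ T, mu ψ x (Qf x) n =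
        ∑ n ∈ Finset.range P, G n * chi (ψ n) := by
      refine Finset.sum_congr rfl fun n _ => ?_
      simp only [hG]
      ring
    have e2 : ∀ t : ℕ, ∑ n ∈ Finset.range P, G n * chi (ψ n) =
        ∑ n ∈ Finset.range P, G n * chi (ψ ((n : ℤ) + Qf ℓ * t)) := by
      intro t
      have h1 := sum_shift (P := P) (f := fun n => G n * chi (ψ n)) (by
        intro n
        show G (n + P) * chi (ψ (n + P)) = _
        rw [hGP, hper]) (Qf ℓ * t)
      rw [← h1]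
      refine Finset.sum_congr rfl fun n _ => ?_
      show G (n + ((Qf ℓ * t : ℕ) : ℤ)) * chi (ψ (n + ((Qf ℓ * t : ℕ) : ℤ))) = _
      push_cast
      rw [hGinv]
    have e3 : (ℓ : ℝ) * ∑ n ∈ Finset.range P, G n * chi (ψ n) =
        ∑ n ∈ Finset.range P, G n * chi (ψ n) * (ℓ * mu ψ ℓ (Qf ℓ) n) := by
      calc (ℓ : ℝ) * ∑ n ∈ Finset.range P, G n * chi (ψ n)
          = ∑ t ∈ Finset.range ℓ, ∑ n ∈ Finset.range P, G n * chi (ψ n) := by
            rw [Finset.sum_const, Finset.card_range, nsmul_eq_mul]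
        _ = ∑ t ∈ Finset.range ℓ, ∑ n ∈ Finset.range P, G n * chi (ψ ((n : ℤ) + Qf ℓ * t)) :=
            Finset.sum_congr rfl fun t _ => e2 t
        _ = ∑ n ∈ Finset.range P, ∑ t ∈ Finset.range ℓ, G n * chi (ψ ((n : ℤ) + Qf ℓ * t)) :=
            Finset.sum_comm
        _ = _ := by
            refine Finset.sum_congr rfl fun n _ => ?_
            unfold mu
            rw [mul_div_cancel₀ _ hℓ0, Finset.mul_sum]
            refine Finset.sum_congr rfl fun t _ => ?_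
            have : chi (ψ ((n : ℤ) + Qf ℓ * t)) =
                chi (ψ n) * chi (ψ ((n : ℤ) + Qf ℓ * t) - ψ n) := by
              rw [← chi_add]
              congr 1
              ring
            rw [this]
            ring
    rw [e1]
    have e4 : (ℓ : ℝ) * ∑ n ∈ Finset.range P, G n * chi (ψ n) =
        ℓ * ∑ n ∈ Finset.range P, G n * chi (ψ n) * mu ψ ℓ (Qf ℓ) n := by
      rw [e3, Finset.mul_sum]
      refine Finset.sum_congr rfl fun n _ => ?_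
      ring
    have e5 := mul_left_cancel₀ hℓ0 e4
    rw [e5]
    refine Finset.sum_congr rfl fun n _ => ?_
    rw [Finset.prod_insert ha]
    simp only [hG]
    ring

/-- If every fiber takes both values more than `W` times, `mu` is small. -/
theorem abs_mu_le {ψ : ℤ → ZMod 2} {ℓ Q W : ℕ} (hℓ : 0 < ℓ) (n : ℤ)
    (hsp : ∀ c : ZMod 2, W < ((Finset.range ℓ).filter fun t : ℕ => ψ (n + Q * t) ≠ c).card) :
    |mu ψ ℓ Q n| ≤ 1 - 2 * W / ℓ := by
  have hℓ0 : (0 : ℝ) < ℓ := by exact_mod_cast hℓ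
  set S0 := (Finset.range ℓ).filter fun t : ℕ => ψ (n + Q * t) ≠ ψ n with hS0
  set S1 := (Finset.range ℓ).filter fun t : ℕ => ¬ ψ (n + Q * t) ≠ ψ n with hS1
  have hsum : S0.card + S1.card = ℓ := by
    rw [hS0, hS1, Finset.card_filter_add_card_filter_not, Finset.card_range]
  have h0 : W < S0.card := hsp (ψ n)
  have h1 : W < S1.card := by
    have := hsp (ψ n + 1)
    refine lt_of_lt_of_le this (Finset.card_le_card ?_)
    intro t ht
    rw [Finset.mem_filter] at ht ⊢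
    refine ⟨ht.1, ?_⟩
    have h2 : ∀ a b : ZMod 2, a ≠ b + 1 → ¬ a ≠ b := by decide
    exact h2 _ _ ht.2
  have hval : ∑ t ∈ Finset.range ℓ, chi (ψ (n + Q * t) - ψ n) = (S1.card : ℝ) - S0.card := by
    rw [← Finset.sum_filter_add_sum_filter_not (Finset.range ℓ) (fun t : ℕ => ψ (n + Q * t) ≠ ψ n)]
    have a1 : ∑ t ∈ (Finset.range ℓ).filter (fun t : ℕ => ψ (n + Q * t) ≠ ψ n),
        chi (ψ (n + Q * t) - ψ n) = -(S0.card : ℝ) := by
      rw [Finset.sum_congr rfl (g := fun _ => (-1 : ℝ))]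
      · rw [Finset.sum_const, nsmul_eq_mul]
        ring
      · intro t ht
        have h3 := (Finset.mem_filter.mp ht).2
        unfold chi
        rw [if_neg (sub_ne_zero.mpr h3)]
    have a2 : ∑ t ∈ (Finset.range ℓ).filter (fun t : ℕ => ¬ ψ (n + Q * t) ≠ ψ n),
        chi (ψ (n + Q * t) - ψ n) = (S1.card : ℝ) := by
      rw [Finset.sum_congr rfl (g := fun _ => (1 : ℝ))]
      · rw [Finset.sum_const, nsmul_eq_mul]
        ring
      · intro t ht
        have h3 := (Finset.mem_filter.mp ht).2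
        push Not at h3
        unfold chi
        rw [if_pos (sub_eq_zero.mpr h3)]
    rw [a1, a2]
    ring
  unfold mu
  rw [hval, abs_div, abs_of_pos hℓ0, div_le_iff₀ hℓ0]
  have e1 : (1 - 2 * (W : ℝ) / ℓ) * ℓ = ℓ - 2 * W := by
    field_simp
  rw [e1]
  have hsum' : (S0.card : ℝ) + S1.card = ℓ := by exact_mod_cast hsum
  have h0' : (W : ℝ) ≤ S0.card := by exact_mod_cast h0.le
  have h1' : (W : ℝ) ≤ S1.card := by exact_mod_cast h1.le
  rw [abs_le]
  constructor <;> linarith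

theorem average_le {P W : ℕ} (ψ : ℤ → ZMod 2) (g : ℤ → ℝ) (T : Finset ℕ) (Qf : ℕ → ℕ)
    (hpos : ∀ ℓ ∈ T, 0 < ℓ) (hP : ∀ ℓ ∈ T, ℓ * Qf ℓ = P)
    (hdvd : ∀ ℓ ∈ T, ∀ ℓ' ∈ T, ℓ ≠ ℓ' → ℓ ∣ Qf ℓ')
    (hper : ∀ n, ψ (n + P) = ψ n)
    (hg2 : ∀ ℓ ∈ T, ∀ n, g (n + Qf ℓ) = g n) (hg0 : ∀ n, 0 ≤ g n)
    (hs : ∀ ℓ ∈ T, ∀ n : ℤ, ψ (n + ℓ + Qf ℓ) - ψ (n + ℓ) = ψ (n + Qf ℓ) - ψ n)
    (hsp : ∀ ℓ ∈ T, ∀ (n : ℤ) (c : ZMod 2),
      W < ((Finset.range ℓ).filter fun t : ℕ => ψ (n + Qf ℓ * t) ≠ c).card) :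
    |∑ n ∈ Finset.range P, g (n : ℤ) * chi (ψ n)| ≤
      (∑ n ∈ Finset.range P, g (n : ℤ)) * ∏ ℓ ∈ T, (1 - 2 * (W : ℝ) / ℓ) := by
  rw [average_eq ψ g T Qf hpos hP hdvd hper hg2 hs]
  refine (Finset.abs_sum_le_sum_abs _ _).trans ?_
  rw [Finset.sum_mul]
  refine Finset.sum_le_sum fun n _ => ?_
  rw [abs_mul, abs_mul, abs_chi, mul_one, abs_of_nonneg (hg0 n), Finset.abs_prod]
  refine mul_le_mul_of_nonneg_left ?_ (hg0 n)
  refine Finset.prod_le_prod (fun _ _ => abs_nonneg _) fun ℓ hℓ => ?_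
  exact abs_mu_le (hpos ℓ hℓ) n (hsp ℓ hℓ n)

end Pool.Agent.H557
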