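import Pool.Agent.H557.Chain

/-!
Bad pairs `(k, ℓ)`: two bad `k`'s for the same `ℓ` cannot be at a middle distance.
-/

namespace Pool.Agent.H557

open Polynomial Finset

/-- `(k, ℓ)` is bad: some sparse polynomial of small degree maps the parity sequence of `rp k` to
the sum of an `ℓ`-periodic function with small support and a function with a period
prime to `ℓ`. -/
def Bad (L W D k ℓ : ℕ) : Prop :=
  ∃ A : (ZMod 2)[X], A ≠ 0 ∧ A.natDegree < D ∧ A.support.card ≤ L ∧
    ∃ (β : ZMod ℓ → ZMod 2) (B : Finset (ZMod ℓ)) (r : ℤ → ZMod 2) (Q : ℕ),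
      B.card ≤ W ∧ (∀ x, x ∉ B → β x = 0) ∧ Nat.Coprime ℓ Q ∧ (∀ n, r (n + Q) = r n) ∧
      ∀ n : ℤ, act A (cc k) n = β (n : ZMod ℓ) + r n

theorem const_of_periodic {ℓ Q : ℕ} (hc : Nat.Coprime ℓ Q) {u : ZMod ℓ → ZMod 2}
    (hu : ∀ n : ℤ, u ((n + Q : ℤ) : ZMod ℓ) = u (n : ZMod ℓ)) (x : ZMod ℓ) : u x = u 0 := by
  have hunit : IsUnit ((Q : ℕ) : ZMod ℓ) := (ZMod.isUnit_iff_coprime Q ℓ).mpr hc.symm
  obtain ⟨v, hv⟩ := hunit.exists_right_inv
  obtain ⟨m, hm⟩ := ZMod.intCast_surjective (v * x)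
  have h2 : ∀ m : ℤ, u (((Q * m : ℤ)) : ZMod ℓ) = u 0 := by
    intro m
    have hper : ∀ n : ℤ, (fun n : ℤ => u (n : ZMod ℓ)) (n + Q) = (fun n : ℤ => u (n : ZMod ℓ)) n :=
      fun n => hu n
    have := periodic_mul_int (f := fun n : ℤ => u (n : ZMod ℓ)) hper 0 m
    simpa using this
  have h3 := h2 m
  rw [← h3]
  congr 1
  push_cast
  rw [hm, ← mul_assoc, hv, one_mul]

theorem bad_pair {L W D k h ℓ : ℕ} (hℓ : 1 < ℓ) (hodd : Odd ℓ) (hℓk : ℓ ≤ k)
    (hD : 2 * D ≤ ℓ) (hV1 : 1 ≤ L * W)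
    (hb0 : Bad L W D k ℓ) (hb1 : Bad L W D (k + h) ℓ)
    (hgen : Generic (k + h) ℓ (2 * (L * W * h)) (2 * (L * W * h * h)))
    (hsize : L * W * ((h + 1) * (h * h + 1)) + L * W < ℓ) : h + 1 ≤ L * W := by
  have : NeZero ℓ := ⟨by omega⟩
  obtain ⟨A0, hA0, hd0, hc0, β0, B0, r0, Q0, hB0, hβ0, hcop0, hr0, hdec0⟩ := hb0
  obtain ⟨A1, hA1, hd1, hc1, β1, B1, r1, Q1, hB1, hβ1, hcop1, hr1, hdec1⟩ := hb1
  have hs0 : (spt β0).card ≤ W := by
    refine (Finset.card_le_card ?_).trans hB0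
    intro x hx
    by_contra hx'
    exact mem_spt.mp hx (hβ0 x hx')
  have hs1 : (spt β1).card ≤ W := by
    refine (Finset.card_le_card ?_).trans hB1
    intro x hx
    by_contra hx'
    exact mem_spt.mp hx (hβ1 x hx')
  set f : ZMod ℓ → ZMod 2 := act A0 β1 with hf
  have hfcard : (spt f).card ≤ L * W :=
    (card_spt_act_le A0 β1).trans (Nat.mul_le_mul hc0 hs1)
  set F : ZMod ℓ → ZMod 2 := act (PG (k + h) (Finset.range h)) f with hF
  set G : (ZMod 2)[X] := PG (k + h) (Finset.range h) with hG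
  have hk1 : 1 ≤ k := by omega
  have hdown : act G (cc (k + h)) = cc k := act_down hk1 h
  -- first expression
  have e1 : ∀ n : ℤ, act (A0 * A1) (cc k) n = F (n : ZMod ℓ) + act (A0 * G) r1 n := by
    intro n
    have hfun : act A1 (cc (k + h)) = (fun n : ℤ => β1 (n : ZMod ℓ)) + r1 := by
      funext m
      exact hdec1 m
    rw [← hdown, ← act_mul, show A0 * A1 * G = (A0 * G) * A1 by ring, act_mul, hfun, act_add,
      Pi.add_apply]
    congr 1
    have := act_comp (Int.castRingHom (ZMod ℓ)) (A0 * G) β1 n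
    simp only [eq_intCast] at this
    rw [this, mul_comm A0 G, act_mul]
  -- second expression
  have e2 : ∀ n : ℤ, act (A0 * A1) (cc k) n = act A1 β0 (n : ZMod ℓ) + act A1 r0 n := by
    intro n
    have hfun : act A0 (cc k) = (fun n : ℤ => β0 (n : ZMod ℓ)) + r0 := by
      funext m
      exact hdec0 m
    rw [mul_comm A0 A1, act_mul, hfun, act_add, Pi.add_apply]
    congr 1
    have := act_comp (Int.castRingHom (ZMod ℓ)) A1 β0 n
    simpa only [eq_intCast] using this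
  -- F differs from act A1 β0 by a constant
  have hcopQ : Nat.Coprime ℓ (Q0 * Q1) := Nat.Coprime.mul_right hcop0 hcop1
  have hp0 : ∀ n, act A1 r0 (n + (Q0 * Q1 : ℕ)) = act A1 r0 n := by
    apply act_periodic
    intro n
    push_cast
    exact periodic_mul_int hr0 n Q1
  have hp1 : ∀ n, act (A0 * G) r1 (n + (Q0 * Q1 : ℕ)) = act (A0 * G) r1 n := by
    apply act_periodic
    intro n
    push_cast
    rw [mul_comm (Q0 : ℤ) Q1]
    exact periodic_mul_int hr1 n Q0
  have hconst := const_of_periodic hcopQ (u := fun x => F x - act A1 β0 x) (by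
    intro n
    have a1 := (e1 n).symm.trans (e2 n)
    have a2 := (e1 (n + (Q0 * Q1 : ℕ))).symm.trans (e2 (n + (Q0 * Q1 : ℕ)))
    rw [hp0, hp1] at a2
    show F (((n + (Q0 * Q1 : ℕ) : ℤ)) : ZMod ℓ) - act A1 β0 (((n + (Q0 * Q1 : ℕ) : ℤ)) : ZMod ℓ) =
      F (n : ZMod ℓ) - act A1 β0 (n : ZMod ℓ)
    linear_combination a2 - a1)
  set c : ZMod 2 := F 0 - act A1 β0 0 with hcdef
  have hFc : ∀ x, F x = act A1 β0 x + c := by
    intro x
    have := hconst x
    show F x = act A1 β0 x + c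
    have h2 : F x - act A1 β0 x = c := this
    linear_combination h2
  have hs2 : (spt (act A1 β0)).card ≤ L * W :=
    (card_spt_act_le A1 β0).trans (Nat.mul_le_mul hc1 hs0)
  have hFcard : (spt F).card ≤ L * W * ((h + 1) * (h * h + 1)) :=
    (card_spt_PG_le (by omega) f).trans (Nat.mul_le_mul_right _ hfcard)
  have hc0' : c = 0 := by
    by_contra hcne
    have hcov : (Finset.univ : Finset (ZMod ℓ)) ⊆ spt F ∪ spt (act A1 β0) := by
      intro x _
      rw [Finset.mem_union, mem_spt, mem_spt]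
      by_cases hx : act A1 β0 x = 0
      · left
        rw [hFc x, hx, zero_add]
        exact hcne
      · right; exact hx
    have := (Finset.card_le_card hcov).trans (Finset.card_union_le _ _)
    rw [Finset.card_univ, ZMod.card] at this
    omega
  have hFeq : F = act A1 β0 := by
    funext x
    rw [hFc x, hc0', add_zero]
  have hFne : F ≠ 0 := by
    intro hF0
    refine nondeg (A := A0 * A1) hℓk hℓ hodd hcop1 (mul_ne_zero hA0 hA1) ?_ ?_
    · rw [natDegree_mul hA0 hA1]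
      omega
    · intro n
      rw [e1, e1, hF0]
      show (0 : ZMod ℓ → ZMod 2) _ + act (A0 * G) r1 (n + Q1) =
        (0 : ZMod ℓ → ZMod 2) _ + act (A0 * G) r1 n
      rw [act_periodic hr1]
      rfl
  have hlow := card_spt_ge (κ := k + h) (h := h) (V := L * W) (by omega) hV1 f hfcard hgen hFne
  have hup : (spt F).card ≤ L * W := by
    rw [hFeq]
    exact hs2
  exact hlow.trans hup

/-- For a pair that is not bad, every fiber takes both values more than `W` times. -/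
theorem spread {L W D k ℓ Q : ℕ} (hp : ℓ.Prime) (hℓk : ℓ ≤ k) (h2k : k < 2 * ℓ)
    (hc : Nat.Coprime ℓ Q) (hQ : PP k ∣ ℓ * Q) (hb : ¬ Bad L W D k ℓ) {A : (ZMod 2)[X]} (hA : A ≠ 0)
    (hd : A.natDegree < D) (hs : A.support.card ≤ L) (n₀ : ℤ) (c : ZMod 2) :
    W < ((Finset.range ℓ).filter fun t : ℕ => act A (cc k) (n₀ + Q * t) ≠ c).card := by
  have : NeZero ℓ := ⟨hp.ne_zero⟩
  by_contra hle
  rw [not_lt] at hle
  apply hb
  set ψ := act A (cc k) with hψ
  have hsplit : Split ψ ℓ Q := split_of_dvd hp hℓk h2k hQ A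
  have hper : ∀ n : ℤ, ψ (n + (ℓ * Q : ℕ)) = ψ n := by
    obtain ⟨m, hm⟩ := hQ
    rw [hm]
    have h1 : ∀ n : ℤ, ψ (n + PP k) = ψ n := act_periodic (cc_periodic k)
    intro n
    push_cast
    exact periodic_mul_int h1 n m
  obtain ⟨β, r, hr, hdec⟩ := decomp hsplit hc hper
  set d : ZMod 2 := c - r n₀ with hd'
  refine ⟨A, hA, hd, hs, fun x => β x - d,
    ((Finset.range ℓ).filter fun t : ℕ => ψ (n₀ + Q * t) ≠ c).image
      (fun t : ℕ => ((n₀ + Q * t : ℤ) : ZMod ℓ)), fun n => r n + d, Q,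
      Finset.card_image_le.trans hle, ?_, hc, ?_, ?_⟩
  · intro x hx
    by_contra hne
    apply hx
    have hunit : IsUnit ((Q : ℕ) : ZMod ℓ) := (ZMod.isUnit_iff_coprime Q ℓ).mpr hc.symm
    obtain ⟨v, hv⟩ := hunit.exists_right_inv
    have h1 : ((n₀ + Q * ((v * (x - n₀) : ZMod ℓ).val : ℕ) : ℤ) : ZMod ℓ) = x := by
      push_cast
      rw [ZMod.natCast_zmod_val, ← mul_assoc, hv]
      ring
    rw [Finset.mem_image]
    refine ⟨(v * (x - n₀) : ZMod ℓ).val, ?_, h1⟩
    rw [Finset.mem_filter, Finset.mem_range]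
    refine ⟨ZMod.val_lt _, ?_⟩
    rw [hdec, h1, mul_comm (Q : ℤ)]
    have h2 : r (n₀ + (((v * (x - n₀) : ZMod ℓ).val : ℕ) : ℤ) * Q) = r n₀ := by
      rw [mul_comm]
      exact periodic_mul_int hr n₀ _
    rw [h2]
    intro h3
    apply hne
    show β x - d = 0
    rw [hd', ← h3]
    ring
  · intro n
    show r (n + Q) + d = r n + d
    rw [hr]
  · intro n
    show ψ n = β n - d + (r n + d)
    rw [hdec]
    ring

end Pool.Agent.H557
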