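import Mathlib

/-!
Natural densities of periodic sets.
-/

namespace Pool.Agent.H557

open Finset Filter Topology

theorem count_mul_period {P : ℕ} (p : ℕ → Prop) [DecidablePred p] (hp : ∀ n, p (n + P) ↔ p n)
    (m : ℕ) : Nat.count p (P * m) = m * Nat.count p P := by
  induction m with
  | zero => simp
  | succ m ih =>
    have h1 : ∀ n, p (P * m + n) ↔ p n := by
      intro n
      clear ih
      induction m with
      | zero => simp
      | succ m ih =>
        rw [show P * (m + 1) + n = (P * m + n) + P by ring, hp, ih]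
    rw [show P * (m + 1) = P * m + P by ring, Nat.count_add, ih]
    have h2 : Nat.count (fun k => p (P * m + k)) P = Nat.count p P := by
      simp only [h1]
    rw [h2]
    ring

theorem count_periodic_bound {P : ℕ} (hP : 0 < P) (p : ℕ → Prop) [DecidablePred p]
    (hp : ∀ n, p (n + P) ↔ p n) (N : ℕ) :
    |(P : ℝ) * (Nat.count p N : ℝ) - N * Nat.count p P| ≤ P * Nat.count p P := by
  set c := Nat.count p P with hc
  have hP0 : (0 : ℝ) < P := by exact_mod_cast hP
  set m := N / P with hm
  have hN : N = P * m + N % P := (Nat.div_add_mod N P).symm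
  have hlt : N % P < P := Nat.mod_lt _ hP
  have h1 : m * c ≤ Nat.count p N := by
    rw [hc, ← count_mul_period p hp m]
    exact Nat.count_monotone p (by omega)
  have h2 : Nat.count p N ≤ (m + 1) * c := by
    rw [hc, ← count_mul_period p hp (m + 1)]
    refine Nat.count_monotone p ?_
    rw [mul_add, mul_one]
    omega
  have h1' : (m : ℝ) * c ≤ Nat.count p N := by exact_mod_cast h1
  have h2' : (Nat.count p N : ℝ) ≤ (m + 1) * c := by exact_mod_cast h2
  have h3 : (P : ℝ) * m ≤ N := by
    have : P * m ≤ N := by omega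
    exact_mod_cast this
  have h4 : (N : ℝ) ≤ P * m + P := by
    have : N ≤ P * m + P := by omega
    exact_mod_cast this
  have hc0 : (0 : ℝ) ≤ c := Nat.cast_nonneg _
  rw [abs_le]
  constructor
  · nlinarith [mul_le_mul_of_nonneg_left h1' hP0.le, mul_le_mul_of_nonneg_right h4 hc0]
  · nlinarith [mul_le_mul_of_nonneg_left h2' hP0.le, mul_le_mul_of_nonneg_right h3 hc0]

/-- Counting a periodic set in an arbitrary interval. -/
theorem count_interval {P : ℕ} (hP : 0 < P) (p : ℕ → Prop) [DecidablePred p]
    (hp : ∀ n, p (n + P) ↔ p n) (x N : ℕ) (hN : 0 < N) :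
    |(((Finset.range N).filter fun n => p (x + n)).card : ℝ) / N -
      (((Finset.range P).filter p).card : ℝ) / P| ≤ (((Finset.range P).filter p).card : ℝ) / N := by
  have hp' : ∀ n, p (x + (n + P)) ↔ p (x + n) := by
    intro n
    rw [← add_assoc, hp]
  have h1 := count_periodic_bound hP (fun n => p (x + n)) hp' N
  have h2 : Nat.count (fun n => p (x + n)) P = Nat.count p P := by
    have e1 := Nat.count_add p x P
    have e2 := Nat.count_add p P x
    have e3 : Nat.count (fun k => p (P + k)) x = Nat.count p x := by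
      congr 1
      funext k
      rw [add_comm P k]
      exact propext (hp k)
    rw [e3, add_comm P x] at e2
    omega
  rw [h2] at h1
  rw [Nat.count_eq_card_filter_range, Nat.count_eq_card_filter_range] at h1
  have hP0 : (0 : ℝ) < P := by exact_mod_cast hP
  have hN0 : (0 : ℝ) < N := by exact_mod_cast hN
  set f : ℝ := (((Finset.range N).filter fun n => p (x + n)).card : ℝ)
  set c : ℝ := (((Finset.range P).filter p).card : ℝ)
  have e1 : f / N - c / P = (P * f - N * c) / (N * P) := by
    field_simp
  rw [e1, abs_div, abs_of_pos (by positivity : (0 : ℝ) < N * P),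
    div_le_div_iff₀ (by positivity) hN0]
  calc |(P : ℝ) * f - N * c| * N ≤ (P * c) * N :=
        mul_le_mul_of_nonneg_right h1 hN0.le
    _ = c * (N * P) := by ring

/-- Number of terms of a residue class in a full period. -/
theorem sum_class {q : ℕ} (hq : 0 < q) (ρ M : ℕ) :
    ∑ n ∈ Finset.range (q * M), (if (q : ℤ) ∣ (n : ℤ) - ρ then (1 : ℝ) else 0) = M := by
  have h1 : ∑ i ∈ Finset.range q, (if (q : ℤ) ∣ (i : ℤ) - ρ then (1 : ℝ) else 0) = 1 := by
    rw [Finset.sum_eq_single_of_mem (ρ % q) (Finset.mem_range.mpr (Nat.mod_lt _ hq))]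
    · rw [if_pos]
      have : ((ρ % q : ℕ) : ℤ) - ρ = -((q : ℤ) * (ρ / q : ℕ)) := by
        have := Nat.mod_add_div ρ q
        have h2 : ((ρ % q : ℕ) : ℤ) + q * (ρ / q : ℕ) = ρ := by exact_mod_cast this
        linarith
      rw [this]
      exact (dvd_neg).mpr (dvd_mul_right _ _)
    · intro b hb hne
      rw [if_neg]
      intro hdvd
      apply hne
      have h3 : b ≡ ρ [MOD q] := ((Nat.modEq_iff_dvd).mpr hdvd).symm
      have h4 : b % q = ρ % q := h3
      rw [Nat.mod_eq_of_lt (Finset.mem_range.mp hb)] at h4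
      exact h4
  induction M with
  | zero => simp
  | succ M ih =>
    rw [mul_add, mul_one, Finset.sum_range_add, ih]
    have h2 : ∑ x ∈ Finset.range q, (if (q : ℤ) ∣ ((q * M + x : ℕ) : ℤ) - ρ then (1 : ℝ) else 0) =
        ∑ i ∈ Finset.range q, (if (q : ℤ) ∣ (i : ℤ) - ρ then (1 : ℝ) else 0) := by
      refine Finset.sum_congr rfl fun x _ => ?_
      have : (q : ℤ) ∣ ((q * M + x : ℕ) : ℤ) - ρ ↔ (q : ℤ) ∣ (x : ℤ) - ρ := by
        push_cast
        rw [show (q : ℤ) * M + x - ρ = (q : ℤ) * M + (x - ρ) by ring]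
        exact (Int.dvd_add_right (dvd_mul_right _ _))
      simp only [this]
    rw [h2, h1]
    push_cast
    ring

end Pool.Agent.H557
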