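import Pool.Agent.H557.Window
import Pool.Agent.H557.Average
import Pool.Agent.H557.Density

/-!
Bias bound for one `k` with many good primes, and counting of patterns.
-/

namespace Pool.Agent.H557

open Polynomial Finset

/-- The polynomial `∑_{d ∈ B} X^(M-d)`. -/
noncomputable def AB (M : ℕ) (B : Finset ℕ) : (ZMod 2)[X] := ∑ d ∈ B, X ^ (M - d)

theorem act_sum {ι : Type*} (s : Finset ι) (A : ι → (ZMod 2)[X]) (f : ℤ → ZMod 2) (n : ℤ) :
    act (∑ i ∈ s, A i) f n = ∑ i ∈ s, act (A i) f n := by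
  classical
  induction s using Finset.induction with
  | empty =>
    rw [Finset.sum_empty, Finset.sum_empty]
    unfold act
    rw [map_zero]
    rfl
  | insert a s ha ih =>
    rw [Finset.sum_insert ha, Finset.sum_insert ha, act_add_left, Pi.add_apply, ih]

theorem act_AB {M : ℕ} {B : Finset ℕ} (hB : ∀ d ∈ B, d ≤ M) (f : ℤ → ZMod 2) (n : ℤ) :
    act (AB M B) f (n + M) = ∑ d ∈ B, f (n + d) := by
  unfold AB
  rw [act_sum]
  refine Finset.sum_congr rfl fun d hd => ?_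
  rw [act_X_pow, Nat.cast_sub (hB d hd)]
  congr 1
  ring

theorem coeff_AB {M : ℕ} {B : Finset ℕ} (hB : ∀ d ∈ B, d ≤ M) (j : ℕ) :
    (AB M B).coeff j = if j ≤ M ∧ M - j ∈ B then 1 else 0 := by
  classical
  unfold AB
  rw [finsetSum_coeff]
  simp only [coeff_X_pow]
  split_ifs with h
  · rw [Finset.sum_eq_single_of_mem (M - j) h.2]
    · rw [if_pos]; omega
    · intro b hb hne
      rw [if_neg]
      intro h2
      apply hne
      have := hB b hb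
      omega
  · refine Finset.sum_eq_zero fun b hb => ?_
    rw [if_neg]
    intro h2
    apply h
    have := hB b hb
    refine ⟨by omega, ?_⟩
    have h3 : M - j = b := by omega
    rw [h3]
    exact hb

theorem AB_ne_zero {M : ℕ} {B : Finset ℕ} (hB : ∀ d ∈ B, d ≤ M) (hne : B.Nonempty) :
    AB M B ≠ 0 := by
  obtain ⟨d, hd⟩ := hne
  intro h0
  have h1 := coeff_AB hB (M - d)
  have hdM := hB d hd
  rw [if_pos ⟨by omega, by rw [show M - (M - d) = d by omega]; exact hd⟩, h0, coeff_zero] at h1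
  exact zero_ne_one h1

theorem natDegree_AB {M : ℕ} {B : Finset ℕ} (hB : ∀ d ∈ B, d ≤ M) : (AB M B).natDegree ≤ M := by
  rw [natDegree_le_iff_coeff_eq_zero]
  intro j hj
  rw [coeff_AB hB, if_neg]
  intro h
  omega

theorem card_support_AB {M : ℕ} {B : Finset ℕ} (hB : ∀ d ∈ B, d ≤ M) :
    (AB M B).support.card ≤ B.card := by
  classical
  have hsub : (AB M B).support ⊆ B.image (fun d => M - d) := by
    intro j hj
    rw [mem_support_iff, coeff_AB hB] at hj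
    have h : j ≤ M ∧ M - j ∈ B := by
      by_contra h
      rw [if_neg h] at hj
      exact hj rfl
    rw [Finset.mem_image]
    exact ⟨M - j, h.2, by omega⟩
  exact (Finset.card_le_card hsub).trans Finset.card_image_le

theorem dvd_PP {k i : ℕ} (h1 : 1 ≤ i) (h2 : i ≤ k) : i ∣ PP k := by
  unfold PP LL
  exact (Finset.dvd_lcm (f := id) (Finset.mem_Icc.mpr ⟨h1, h2⟩)).mul_left _

theorem coprime_PP_div {k ℓ : ℕ} (hp : ℓ.Prime) (hodd : ℓ ≠ 2) (h1 : ℓ ≤ k) (h2 : k < 2 * ℓ) :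
    Nat.Coprime ℓ (PP k / ℓ) := by
  rw [PP_eq hp h1 h2, Nat.mul_div_cancel_left _ hp.pos]
  have h3 : Nat.Coprime ℓ 2 := (Nat.coprime_primes hp Nat.prime_two).mpr hodd
  exact Nat.Coprime.mul_right (h3.pow_right k) (coprime_LE hp h2)

/-- The bias bound. -/
theorem bias {L W Dp k q : ℕ} (hq : 0 < q) (ρ : ℕ) (T : Finset ℕ) (hprime : ∀ ℓ ∈ T, ℓ.Prime)
    (hodd : ∀ ℓ ∈ T, ℓ ≠ 2) (hlow : ∀ ℓ ∈ T, k < 2 * ℓ) (hup : ∀ ℓ ∈ T, ℓ ≤ k)
    (hbad : ∀ ℓ ∈ T, ¬ Bad L W Dp k ℓ) (hndvd : ∀ ℓ ∈ T, ¬ ℓ ∣ q)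
    {M : ℕ} (hM : M < Dp) {B : Finset ℕ} (hB : ∀ d ∈ B, d ≤ M) (hne : B.Nonempty)
    (hcard : B.card ≤ L) :
    |∑ n ∈ Finset.range (q * PP k), (if (q : ℤ) ∣ (n : ℤ) - ρ then (1 : ℝ) else 0) *
      chi (∑ d ∈ B, cc k ((n : ℤ) + d))| ≤
      (PP k : ℝ) * ∏ ℓ ∈ T, (1 - 2 * (W : ℝ) / ℓ) := by
  have hdiv : ∀ ℓ ∈ T, ℓ ∣ PP k := fun ℓ hℓ => dvd_PP (hprime ℓ hℓ).one_le (hup ℓ hℓ)
  have hmul : ∀ ℓ ∈ T, ℓ * (q * (PP k / ℓ)) = q * PP k := by
    intro ℓ hℓ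
    have := Nat.mul_div_cancel' (hdiv ℓ hℓ)
    calc ℓ * (q * (PP k / ℓ)) = q * (ℓ * (PP k / ℓ)) := by ring
      _ = q * PP k := by rw [this]
  have hPPq : PP k ∣ q * PP k := dvd_mul_left _ _
  have key := average_le (P := q * PP k) (W := W)
    (fun n : ℤ => act (AB M B) (cc k) (n + M))
    (fun n : ℤ => if (q : ℤ) ∣ n - ρ then (1 : ℝ) else 0) T (fun ℓ => q * (PP k / ℓ))
    (fun ℓ hℓ => (hprime ℓ hℓ).pos) hmul ?_ ?_ ?_ ?_ ?_ ?_
  · rw [sum_class hq ρ (PP k)] at key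
    refine le_trans (le_of_eq ?_) key
    congr 1
    refine Finset.sum_congr rfl fun n _ => ?_
    rw [act_AB hB]
  · intro ℓ hℓ ℓ' hℓ' hne'
    have h1 : ℓ ∣ ℓ' * (PP k / ℓ') := by
      rw [Nat.mul_div_cancel' (hdiv ℓ' hℓ')]
      exact hdiv ℓ hℓ
    have h2 : Nat.Coprime ℓ ℓ' := (Nat.coprime_primes (hprime ℓ hℓ) (hprime ℓ' hℓ')).mpr hne'
    exact (h2.dvd_of_dvd_mul_left h1).mul_left q
  · intro n
    show act (AB M B) (cc k) (n + (q * PP k : ℕ) + M) = _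
    have hper : ∀ n : ℤ, act (AB M B) (cc k) (n + PP k) = act (AB M B) (cc k) n :=
      act_periodic (cc_periodic k)
    have := periodic_mul_int hper (n + M) q
    rw [← this]
    congr 1
    push_cast
    ring
  · intro ℓ hℓ n
    have : (q : ℤ) ∣ n + ((q * (PP k / ℓ) : ℕ) : ℤ) - ρ ↔ (q : ℤ) ∣ n - ρ := by
      rw [Nat.cast_mul, show n + (q : ℤ) * ((PP k / ℓ : ℕ) : ℤ) - ρ =
        (q : ℤ) * ((PP k / ℓ : ℕ) : ℤ) + (n - ρ) by ring]
      exact (Int.dvd_add_right (dvd_mul_right _ _))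
    simp only [this]
  · intro n
    split_ifs <;> norm_num
  · intro ℓ hℓ n
    have h1 : PP k ∣ ℓ * (q * (PP k / ℓ)) := by
      rw [hmul ℓ hℓ]
      exact hPPq
    have h2 := split_of_dvd (hprime ℓ hℓ) (hup ℓ hℓ) (hlow ℓ hℓ) h1 (AB M B) (n + M)
    show act (AB M B) (cc k) (n + ℓ + (q * (PP k / ℓ) : ℕ) + M) - act (AB M B) (cc k) (n + ℓ + M) =
      act (AB M B) (cc k) (n + (q * (PP k / ℓ) : ℕ) + M) - act (AB M B) (cc k) (n + M)
    rw [show n + (ℓ : ℤ) + ((q * (PP k / ℓ) : ℕ) : ℤ) + M = n + M + ℓ + ((q * (PP k / ℓ) : ℕ) : ℤ) by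
      ring, show n + (ℓ : ℤ) + M = n + M + ℓ by ring,
      show n + ((q * (PP k / ℓ) : ℕ) : ℤ) + M = n + M + ((q * (PP k / ℓ) : ℕ) : ℤ) by ring]
    exact h2
  · intro ℓ hℓ n c
    have hp := hprime ℓ hℓ
    have h1 : PP k ∣ ℓ * (q * (PP k / ℓ)) := by
      rw [hmul ℓ hℓ]
      exact hPPq
    have hcop : Nat.Coprime ℓ (q * (PP k / ℓ)) :=
      Nat.Coprime.mul_right ((Nat.Prime.coprime_iff_not_dvd hp).mpr (hndvd ℓ hℓ))
        (coprime_PP_div hp (hodd ℓ hℓ) (hup ℓ hℓ) (hlow ℓ hℓ))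
    have h2 := spread hp (hup ℓ hℓ) (hlow ℓ hℓ) hcop h1 (hbad ℓ hℓ) (AB_ne_zero hB hne)
      (lt_of_le_of_lt (natDegree_AB hB) hM) ((card_support_AB hB).trans hcard) (n + M) c
    refine lt_of_lt_of_le h2 (le_of_eq ?_)
    congr 1
    refine Finset.filter_congr fun t _ => ?_
    show act (AB M B) (cc k) (n + M + ((q * (PP k / ℓ) : ℕ) : ℤ) * t) ≠ c ↔
      act (AB M B) (cc k) (n + ((q * (PP k / ℓ) : ℕ) : ℤ) * t + M) ≠ c
    rw [show n + (M : ℤ) + ((q * (PP k / ℓ) : ℕ) : ℤ) * t =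
      n + ((q * (PP k / ℓ) : ℕ) : ℤ) * t + M by ring]

/-- Counting patterns from bias bounds. -/
theorem pattern_count {k q : ℕ} (hq : 0 < q) (ρ : ℕ) (D : Finset ℕ) (w : ℕ → ZMod 2) (ε : ℝ)
    (hε : ∀ B ⊆ D, B.Nonempty →
      |∑ n ∈ Finset.range (q * PP k), (if (q : ℤ) ∣ (n : ℤ) - ρ then (1 : ℝ) else 0) *
        chi (∑ d ∈ B, cc k ((n : ℤ) + d))| ≤ (PP k : ℝ) * ε) (hε0 : 0 ≤ ε) :
    |2 ^ D.card * (((Finset.range (q * PP k)).filter
        (fun n : ℕ => (q : ℤ) ∣ (n : ℤ) - ρ ∧ ∀ d ∈ D, cc k ((n : ℤ) + d) = w d)).card : ℝ) - PP k| ≤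
      2 ^ D.card * (PP k * ε) := by
  classical
  have hind : ∀ n : ℕ, (if ((q : ℤ) ∣ (n : ℤ) - ρ ∧ ∀ d ∈ D, cc k ((n : ℤ) + d) = w d)
      then (1 : ℝ) else 0) * 2 ^ D.card = (if (q : ℤ) ∣ (n : ℤ) - ρ then (1 : ℝ) else 0) *
        ∏ d ∈ D, (1 + chi (cc k ((n : ℤ) + d) + w d)) := by
    intro n
    by_cases h1 : (q : ℤ) ∣ (n : ℤ) - ρ
    · by_cases h2 : ∀ d ∈ D, cc k ((n : ℤ) + d) = w d
      · rw [if_pos ⟨h1, h2⟩, if_pos h1, one_mul, one_mul]
        rw [Finset.prod_congr rfl (g := fun _ => (2 : ℝ))]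
        · rw [Finset.prod_const]
        · intro d hd
          rw [h2 d hd]
          have : ∀ a : ZMod 2, a + a = 0 := by decide
          rw [this, chi_zero]
          norm_num
      · rw [if_neg (fun h => h2 h.2), zero_mul, if_pos h1, one_mul]
        push Not at h2
        obtain ⟨d, hd, hne⟩ := h2
        symm
        apply Finset.prod_eq_zero hd
        have : ∀ a b : ZMod 2, a ≠ b → ¬ a + b = 0 := by decide
        unfold chi
        rw [if_neg (this _ _ hne)]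
        norm_num
    · rw [if_neg (fun h => h1 h.1), if_neg h1, zero_mul, zero_mul]
  have hcount : (((Finset.range (q * PP k)).filter
        (fun n : ℕ => (q : ℤ) ∣ (n : ℤ) - ρ ∧ ∀ d ∈ D, cc k ((n : ℤ) + d) = w d)).card : ℝ) =
      ∑ n ∈ Finset.range (q * PP k), (if ((q : ℤ) ∣ ((n : ℕ) : ℤ) - ρ ∧
        ∀ d ∈ D, cc k ((n : ℤ) + d) = w d) then (1 : ℝ) else 0) := by
    rw [Finset.sum_boole]
  have hexp : 2 ^ D.card * (((Finset.range (q * PP k)).filter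
        (fun n : ℕ => (q : ℤ) ∣ (n : ℤ) - ρ ∧ ∀ d ∈ D, cc k ((n : ℤ) + d) = w d)).card : ℝ) =
      ∑ B ∈ D.powerset, chi (∑ d ∈ B, w d) * ∑ n ∈ Finset.range (q * PP k),
        (if (q : ℤ) ∣ (n : ℤ) - ρ then (1 : ℝ) else 0) * chi (∑ d ∈ B, cc k ((n : ℤ) + d)) := by
    rw [hcount, Finset.mul_sum]
    calc ∑ n ∈ Finset.range (q * PP k), 2 ^ D.card * (if ((q : ℤ) ∣ ((n : ℕ) : ℤ) - ρ ∧
        ∀ d ∈ D, cc k ((n : ℤ) + d) = w d) then (1 : ℝ) else 0)
        = ∑ n ∈ Finset.range (q * PP k), ∑ B ∈ D.powerset, chi (∑ d ∈ B, w d) *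
          ((if (q : ℤ) ∣ (n : ℤ) - ρ then (1 : ℝ) else 0) *
            chi (∑ d ∈ B, cc k ((n : ℤ) + d))) := by
          refine Finset.sum_congr rfl fun n _ => ?_
          rw [mul_comm, hind n, Finset.prod_one_add, Finset.mul_sum]
          refine Finset.sum_congr rfl fun B _ => ?_
          rw [← chi_sum, Finset.sum_add_distrib, chi_add]
          ring
      _ = _ := by
          rw [Finset.sum_comm]
          refine Finset.sum_congr rfl fun B _ => ?_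
          rw [Finset.mul_sum]
  rw [hexp, ← Finset.add_sum_erase _ _ (Finset.empty_mem_powerset D)]
  have h0 : chi (∑ d ∈ (∅ : Finset ℕ), w d) * ∑ n ∈ Finset.range (q * PP k),
        (if (q : ℤ) ∣ (n : ℤ) - ρ then (1 : ℝ) else 0) *
          chi (∑ d ∈ (∅ : Finset ℕ), cc k ((n : ℤ) + d)) = PP k := by
    rw [Finset.sum_empty, chi_zero, one_mul, ← sum_class hq ρ (PP k)]
    refine Finset.sum_congr rfl fun n _ => ?_
    rw [Finset.sum_empty, chi_zero, mul_one]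
  rw [h0, add_sub_cancel_left]
  refine (Finset.abs_sum_le_sum_abs _ _).trans ?_
  calc ∑ B ∈ D.powerset.erase ∅, |chi (∑ d ∈ B, w d) * ∑ n ∈ Finset.range (q * PP k),
        (if (q : ℤ) ∣ (n : ℤ) - ρ then (1 : ℝ) else 0) * chi (∑ d ∈ B, cc k ((n : ℤ) + d))|
      ≤ ∑ _B ∈ D.powerset.erase ∅, (PP k : ℝ) * ε := by
        refine Finset.sum_le_sum fun B hB => ?_
        rw [abs_mul, abs_chi, one_mul]
        rw [Finset.mem_erase, Finset.mem_powerset] at hB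
        exact hε B hB.2 (Finset.nonempty_iff_ne_empty.mpr hB.1)
    _ = ((D.powerset.erase ∅).card : ℝ) * (PP k * ε) := by
        rw [Finset.sum_const, nsmul_eq_mul]
    _ ≤ 2 ^ D.card * (PP k * ε) := by
        apply mul_le_mul_of_nonneg_right _ (by positivity)
        have : (D.powerset.erase ∅).card ≤ 2 ^ D.card := by
          rw [← Finset.card_powerset]
          exact Finset.card_le_card (Finset.erase_subset _ _)
        exact_mod_cast this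

end Pool.Agent.H557
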