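import Pool.Agent.H557.Split

/-!
The combinatorial heart: functions on `ZMod ℓ` obtained by applying `∏ (1 - X^(κ-i))`.
-/

namespace Pool.Agent.H557

open Polynomial Finset

/-- No small multiple of `κ` is congruent to a small number modulo `ℓ`. -/
def Generic (κ ℓ a₀ b₀ : ℕ) : Prop :=
  ∀ a b : ℤ, |a| ≤ a₀ → |b| ≤ b₀ → ((a : ZMod ℓ) * (κ : ZMod ℓ) = (b : ZMod ℓ)) → a = 0 ∧ b = 0

/-- The product of `1 - X^(κ - i)` over a finite set. -/
noncomputable def PG (κ : ℕ) (I : Finset ℕ) : (ZMod 2)[X] := ∏ i ∈ I, (1 - X ^ (κ - i))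

variable {ℓ : ℕ}

theorem expand [NeZero ℓ] {κ : ℕ} (I : Finset ℕ) (hI : ∀ i ∈ I, i ≤ κ) (f : ZMod ℓ → ZMod 2)
    (x : ZMod ℓ) (hx : act (PG κ I) f x ≠ 0) :
    ∃ y ∈ spt f, ∃ u v : ℕ, u ≤ I.card ∧ v ≤ ∑ i ∈ I, i ∧
      x = y + (u : ZMod ℓ) * (κ : ZMod ℓ) - (v : ZMod ℓ) := by
  classical
  induction I using Finset.induction generalizing x with
  | empty =>
    refine ⟨x, ?_, 0, 0, by simp, by simp, by simp⟩
    unfold PG at hx
    rw [Finset.prod_empty, act_one] at hx
    exact mem_spt.mpr hx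
  | insert a I ha ih =>
    have hI' : ∀ i ∈ I, i ≤ κ := fun i hi => hI i (Finset.mem_insert_of_mem hi)
    have haκ : a ≤ κ := hI a (Finset.mem_insert_self a I)
    have h1 : PG κ (insert a I) = (1 - X ^ (κ - a)) * PG κ I := by
      unfold PG
      rw [Finset.prod_insert ha]
    rw [h1, act_mul, act_one_sub_X_pow] at hx
    rw [Finset.card_insert_of_notMem ha, Finset.sum_insert ha]
    by_cases h0 : act (PG κ I) f x = 0
    · rw [h0, zero_sub, neg_ne_zero] at hx
      obtain ⟨y, hy, u, v, hu, hv, hxy⟩ := ih hI' _ hx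
      refine ⟨y, hy, u + 1, v + a, by omega, by omega, ?_⟩
      rw [Nat.cast_sub haκ] at hxy
      push_cast
      linear_combination hxy
    · obtain ⟨y, hy, u, v, hu, hv, hxy⟩ := ih hI' _ h0
      exact ⟨y, hy, u, v, by omega, by omega, hxy⟩

theorem sum_subset_range_le {h : ℕ} (I : Finset ℕ) (hI : I ⊆ Finset.range h) :
    ∑ i ∈ I, i ≤ h * h := by
  calc ∑ i ∈ I, i ≤ ∑ i ∈ Finset.range h, i := Finset.sum_le_sum_of_subset hI
    _ ≤ ∑ _i ∈ Finset.range h, h := Finset.sum_le_sum fun i hi => (Finset.mem_range.mp hi).le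
    _ = h * h := by simp

/-- Size bound for the support. -/
theorem card_spt_PG_le [NeZero ℓ] {κ h : ℕ} (hκ : h ≤ κ) (f : ZMod ℓ → ZMod 2) :
    (spt (act (PG κ (Finset.range h)) f)).card ≤ (spt f).card * ((h + 1) * (h * h + 1)) := by
  classical
  have hsub : spt (act (PG κ (Finset.range h)) f) ⊆
      (spt f ×ˢ (Finset.range (h + 1) ×ˢ Finset.range (h * h + 1))).image
        (fun p => p.1 + (p.2.1 : ZMod ℓ) * (κ : ZMod ℓ) - (p.2.2 : ZMod ℓ)) := by
    intro x hx
    rw [mem_spt] at hx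
    obtain ⟨y, hy, u, v, hu, hv, hxy⟩ := expand (Finset.range h)
      (fun i hi => by have := Finset.mem_range.mp hi; omega) f x hx
    rw [Finset.card_range] at hu
    have hv2 := hv.trans (sum_subset_range_le _ (Finset.Subset.refl _))
    rw [Finset.mem_image]
    refine ⟨(y, (u, v)), ?_, hxy.symm⟩
    simp only [Finset.mem_product, Finset.mem_range]
    exact ⟨hy, by omega, by omega⟩
  calc (spt (act (PG κ (Finset.range h)) f)).card ≤ _ := Finset.card_le_card hsub
    _ ≤ _ := Finset.card_image_le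
    _ = _ := by rw [Finset.card_product, Finset.card_product, Finset.card_range,
      Finset.card_range]

/-- There are no long runs in the support of the partial products. -/
theorem no_run [NeZero ℓ] {κ h V i : ℕ} (hκ : h ≤ κ) (hi : i < h) (f : ZMod ℓ → ZMod 2)
    (hV : (spt f).card ≤ V) (hgen : Generic κ ℓ (V * h) (V * h * h + h * h))
    (x : ZMod ℓ) (s : ℤ) (hs : s = 1 ∨ s = -1)
    (hrun : ∀ t : ℕ, t ≤ V * h → act (PG κ ((Finset.range h).erase i)) f
      (x + ((s * t : ℤ) : ZMod ℓ) * ((κ - i : ℕ) : ZMod ℓ)) ≠ 0) : False := by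
  classical
  have hmem : i ∈ Finset.range h := Finset.mem_range.mpr hi
  have hch : ∀ t : ℕ, ∃ p : ZMod ℓ × ℕ × ℕ, t ≤ V * h → (p.1 ∈ spt f ∧ p.2.1 < h ∧
      p.2.2 ≤ h * h ∧ (x + ((s * t : ℤ) : ZMod ℓ) * ((κ - i : ℕ) : ZMod ℓ)) =
        p.1 + (p.2.1 : ZMod ℓ) * (κ : ZMod ℓ) - (p.2.2 : ZMod ℓ)) := by
    intro t
    by_cases ht : t ≤ V * h
    · obtain ⟨y, hy, u, v, hu, hv, hxy⟩ := expand ((Finset.range h).erase i)
        (fun j hj => by
          have := Finset.mem_range.mp (Finset.mem_of_mem_erase hj)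
          omega) f _ (hrun t ht)
      rw [Finset.card_erase_of_mem hmem, Finset.card_range] at hu
      have hv2 := hv.trans (sum_subset_range_le _ (Finset.erase_subset _ _))
      exact ⟨(y, u, v), fun _ => ⟨hy, by show u < h; omega, hv2, hxy⟩⟩
    · exact ⟨(0, 0, 0), fun h' => absurd h' ht⟩
  choose p hp using hch
  obtain ⟨t, ht, t', ht', hne, heq⟩ := Finset.exists_ne_map_eq_of_card_lt_of_maps_to
    (s := Finset.range (V * h + 1)) (t := spt f ×ˢ Finset.range h)
    (f := fun t => ((p t).1, (p t).2.1)) (by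
      rw [Finset.card_product, Finset.card_range, Finset.card_range]
      have := Nat.mul_le_mul_right h hV
      omega) (by
      intro t ht
      have h1 := hp t (by have := Finset.mem_range.mp ht; omega)
      simp only [Finset.coe_product, Set.mem_prod, Finset.mem_coe, Finset.mem_range]
      exact ⟨h1.1, h1.2.1⟩)
  rw [Finset.mem_range] at ht ht'
  obtain ⟨-, -, hv1, he1⟩ := hp t (by omega)
  obtain ⟨-, -, hv2, he2⟩ := hp t' (by omega)
  have heq1 : (p t).1 = (p t').1 := (Prod.mk.inj heq).1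
  have heq2 : (p t).2.1 = (p t').2.1 := (Prod.mk.inj heq).2
  rw [heq1, heq2] at he1
  have hiκ : i ≤ κ := by omega
  rw [Nat.cast_sub hiκ] at he1 he2
  have hkey : (((s * t - s * t' : ℤ)) : ZMod ℓ) * (κ : ZMod ℓ) =
      (((s * t - s * t') * i + ((p t').2.2 - (p t).2.2) : ℤ) : ZMod ℓ) := by
    push_cast at he1 he2 ⊢
    linear_combination he1 - he2
  have htt : |(s * t - s * t' : ℤ)| ≤ (V * h : ℕ) := by
    have h1 : (t : ℤ) ≤ (V * h : ℕ) := by exact_mod_cast (by omega : t ≤ V * h)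
    have h2 : (t' : ℤ) ≤ (V * h : ℕ) := by exact_mod_cast (by omega : t' ≤ V * h)
    have h3 : (0 : ℤ) ≤ t := Int.natCast_nonneg t
    have h4 : (0 : ℤ) ≤ t' := Int.natCast_nonneg t'
    rw [abs_le]
    rcases hs with rfl | rfl
    · constructor <;> linarith
    · constructor <;> linarith
  have hb : |((s * t - s * t') * i + ((p t').2.2 - (p t).2.2) : ℤ)| ≤ (V * h * h + h * h : ℕ) := by
    have h1 : |((s * t - s * t') * i : ℤ)| ≤ (V * h : ℕ) * (h : ℤ) := by
      rw [abs_mul]
      have h2 : |(i : ℤ)| ≤ h := by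
        rw [abs_of_nonneg (Int.natCast_nonneg i)]
        exact_mod_cast hi.le
      exact mul_le_mul htt h2 (abs_nonneg _) (Int.natCast_nonneg _)
    have h3 : |(((p t').2.2 : ℤ) - (p t).2.2)| ≤ (h * h : ℕ) := by
      have h4 : ((p t).2.2 : ℤ) ≤ (h * h : ℕ) := by exact_mod_cast hv1
      have h5 : ((p t').2.2 : ℤ) ≤ (h * h : ℕ) := by exact_mod_cast hv2
      have h6 : (0 : ℤ) ≤ (p t).2.2 := Int.natCast_nonneg _
      have h7 : (0 : ℤ) ≤ (p t').2.2 := Int.natCast_nonneg _
      rw [abs_le]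
      constructor <;> linarith
    calc _ ≤ _ := abs_add_le _ _
      _ ≤ (V * h : ℕ) * (h : ℤ) + (h * h : ℕ) := add_le_add h1 h3
      _ = _ := by push_cast; ring
  obtain ⟨h0, -⟩ := hgen _ _ htt hb hkey
  apply hne
  rcases hs with rfl | rfl
  · have : (t : ℤ) = t' := by linarith
    exact_mod_cast this
  · have : (t : ℤ) = t' := by linarith
    exact_mod_cast this

/-- Every point of the support has a partner in direction `κ - i`. -/
theorem partner [NeZero ℓ] {κ h V i : ℕ} (hκ : h ≤ κ) (hi : i < h) (f : ZMod ℓ → ZMod 2)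
    (hV : (spt f).card ≤ V) (hgen : Generic κ ℓ (V * h) (V * h * h + h * h))
    (x : ZMod ℓ) (hx : act (PG κ (Finset.range h)) f x ≠ 0) :
    ∃ t : ℤ, t ≠ 0 ∧ |t| ≤ (V * h : ℕ) ∧
      act (PG κ (Finset.range h)) f (x + (t : ZMod ℓ) * ((κ - i : ℕ) : ZMod ℓ)) ≠ 0 := by
  classical
  by_contra hno
  push Not at hno
  set g : ZMod ℓ := ((κ - i : ℕ) : ZMod ℓ) with hg
  set f' := act (PG κ ((Finset.range h).erase i)) f with hf'
  have hF : ∀ y, act (PG κ (Finset.range h)) f y = f' y - f' (y - g) := by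
    intro y
    have h1 : PG κ (Finset.range h) = (1 - X ^ (κ - i)) * PG κ ((Finset.range h).erase i) :=
      (Finset.mul_prod_erase (Finset.range h) (fun i => (1 - X ^ (κ - i) : (ZMod 2)[X]))
        (Finset.mem_range.mpr hi)).symm
    rw [h1, act_mul, act_one_sub_X_pow]
  rw [hF] at hx
  by_cases h0 : f' x = 0
  · rw [h0, zero_sub, neg_ne_zero] at hx
    refine no_run hκ hi f hV hgen (x - g) (-1) (Or.inr rfl) ?_
    intro t
    induction t with
    | zero => intro _; simpa using hx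
    | succ t ih =>
      intro ht
      have h1 := ih (by omega)
      have h2 := hno (-((t : ℤ) + 1)) (by omega) (by
        rw [abs_neg, abs_of_nonneg (by omega)]
        exact_mod_cast ht)
      rw [hF] at h2
      have h3 : x + ((-((t : ℤ) + 1) : ℤ) : ZMod ℓ) * g = x - g + (((-1) * (t : ℕ) : ℤ) : ZMod ℓ) * g := by
        push_cast; ring
      have h4 : x - g + (((-1) * (t : ℕ) : ℤ) : ZMod ℓ) * g - g =
          x - g + (((-1) * ((t + 1 : ℕ) : ℤ) : ℤ) : ZMod ℓ) * g := by
        push_cast; ring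
      rw [h3, h4] at h2
      rw [sub_eq_zero] at h2
      have h5 : f' (x - g + (((-1) * ((t + 1 : ℕ) : ℤ) : ℤ) : ZMod ℓ) * g) ≠ 0 := by
        rw [← h2]
        exact h1
      exact h5
  · refine no_run hκ hi f hV hgen x 1 (Or.inl rfl) ?_
    intro t
    induction t with
    | zero => intro _; simpa using h0
    | succ t ih =>
      intro ht
      have h1 := ih (by omega)
      have h2 := hno ((t : ℤ) + 1) (by omega) (by
        rw [abs_of_nonneg (by omega)]
        exact_mod_cast ht)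
      rw [hF] at h2
      have h3 : x + (((t : ℤ) + 1 : ℤ) : ZMod ℓ) * g = x + ((1 * ((t + 1 : ℕ) : ℤ) : ℤ) : ZMod ℓ) * g := by
        push_cast; ring
      have h4 : x + ((1 * ((t + 1 : ℕ) : ℤ) : ℤ) : ZMod ℓ) * g - g =
          x + ((1 * ((t : ℕ) : ℤ) : ℤ) : ZMod ℓ) * g := by
        push_cast; ring
      rw [h3, h4] at h2
      rw [sub_eq_zero] at h2
      have h5 : f' (x + ((1 * ((t + 1 : ℕ) : ℤ) : ℤ) : ZMod ℓ) * g) ≠ 0 := by
        rw [h2]
        exact h1
      exact h5

/-- The support has at least `h + 1` points. -/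
theorem card_spt_ge [NeZero ℓ] {κ h V : ℕ} (hκ : h ≤ κ) (hV1 : 1 ≤ V) (f : ZMod ℓ → ZMod 2)
    (hV : (spt f).card ≤ V) (hgen : Generic κ ℓ (2 * (V * h)) (2 * (V * h * h)))
    (hne : act (PG κ (Finset.range h)) f ≠ 0) :
    h + 1 ≤ (spt (act (PG κ (Finset.range h)) f)).card := by
  classical
  obtain ⟨x, hx⟩ := Function.ne_iff.mp hne
  have hx' : act (PG κ (Finset.range h)) f x ≠ 0 := hx
  have hVh : V * h * h + h * h ≤ 2 * (V * h * h) := by
    have : 1 * (h * h) ≤ V * (h * h) := Nat.mul_le_mul_right _ hV1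
    nlinarith
  have hgen' : Generic κ ℓ (V * h) (V * h * h + h * h) := by
    intro a b ha hb hab
    refine hgen a b (ha.trans ?_) (hb.trans ?_) hab
    · exact_mod_cast (by omega : V * h ≤ 2 * (V * h))
    · exact_mod_cast hVh
  have hch : ∀ i : ℕ, ∃ t : ℤ, i < h → (t ≠ 0 ∧ |t| ≤ (V * h : ℕ) ∧
      act (PG κ (Finset.range h)) f (x + (t : ZMod ℓ) * ((κ - i : ℕ) : ZMod ℓ)) ≠ 0) := by
    intro i
    by_cases hi : i < h
    · obtain ⟨t, ht⟩ := partner hκ hi f hV hgen' x hx'
      exact ⟨t, fun _ => ht⟩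
    · exact ⟨0, fun h' => absurd h' hi⟩
  choose t ht using hch
  have hmain : (Finset.range h).card ≤ ((spt (act (PG κ (Finset.range h)) f)).erase x).card := by
    refine Finset.card_le_card_of_injOn
      (fun i => x + (t i : ZMod ℓ) * ((κ - i : ℕ) : ZMod ℓ)) ?_ ?_
    · intro i hi
      have hi' : i < h := Finset.mem_range.mp hi
      obtain ⟨h1, h2, h3⟩ := ht i hi'
      rw [Finset.mem_coe, Finset.mem_erase]
      refine ⟨?_, mem_spt.mpr h3⟩
      intro heq
      have heq2 : (t i : ZMod ℓ) * ((κ - i : ℕ) : ZMod ℓ) = 0 := by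
        have h5 : x + (t i : ZMod ℓ) * ((κ - i : ℕ) : ZMod ℓ) = x := heq
        linear_combination h5
      rw [Nat.cast_sub (by omega)] at heq2
      have heq3 : ((t i : ℤ) : ZMod ℓ) * (κ : ZMod ℓ) = ((t i * i : ℤ) : ZMod ℓ) := by
        push_cast
        linear_combination heq2
      have hbound : |(t i * i : ℤ)| ≤ (2 * (V * h * h) : ℕ) := by
        rw [abs_mul, abs_of_nonneg (Int.natCast_nonneg i)]
        have h6 : |t i| * (i : ℤ) ≤ (V * h : ℕ) * (h : ℤ) :=
          mul_le_mul h2 (by exact_mod_cast hi'.le) (Int.natCast_nonneg i) (Int.natCast_nonneg _)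
        have h7 : ((V * h : ℕ) : ℤ) * (h : ℤ) ≤ (2 * (V * h * h) : ℕ) := by
          have : V * h * h ≤ 2 * (V * h * h) := by omega
          exact_mod_cast this
        linarith
      have h8 : |t i| ≤ ((2 * (V * h) : ℕ) : ℤ) := by
        have : ((V * h : ℕ) : ℤ) ≤ ((2 * (V * h) : ℕ) : ℤ) := by
          exact_mod_cast (by omega : V * h ≤ 2 * (V * h))
        linarith
      exact h1 (hgen _ _ h8 hbound heq3).1
    · intro i hi j hj heq
      have hi' : i < h := by simpa using hi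
      have hj' : j < h := by simpa using hj
      obtain ⟨h1, h2, h3⟩ := ht i hi'
      obtain ⟨h1', h2', h3'⟩ := ht j hj'
      have heq2 : (t i : ZMod ℓ) * ((κ - i : ℕ) : ZMod ℓ) =
          (t j : ZMod ℓ) * ((κ - j : ℕ) : ZMod ℓ) := by
        have h5 : x + (t i : ZMod ℓ) * ((κ - i : ℕ) : ZMod ℓ) =
          x + (t j : ZMod ℓ) * ((κ - j : ℕ) : ZMod ℓ) := heq
        linear_combination h5
      rw [Nat.cast_sub (by omega), Nat.cast_sub (by omega)] at heq2
      have heq3 : ((t i - t j : ℤ) : ZMod ℓ) * (κ : ZMod ℓ) =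
          ((t i * i - t j * j : ℤ) : ZMod ℓ) := by
        push_cast
        linear_combination heq2
      have hb1 : |(t i * i : ℤ)| ≤ (V * h * h : ℕ) := by
        rw [abs_mul, abs_of_nonneg (Int.natCast_nonneg i)]
        have h6 : |t i| * (i : ℤ) ≤ (V * h : ℕ) * (h : ℤ) :=
          mul_le_mul h2 (by exact_mod_cast hi'.le) (Int.natCast_nonneg i) (Int.natCast_nonneg _)
        push_cast at h6 ⊢
        linarith
      have hb2 : |(t j * j : ℤ)| ≤ (V * h * h : ℕ) := by
        rw [abs_mul, abs_of_nonneg (Int.natCast_nonneg j)]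
        have h6 : |t j| * (j : ℤ) ≤ (V * h : ℕ) * (h : ℤ) :=
          mul_le_mul h2' (by exact_mod_cast hj'.le) (Int.natCast_nonneg j) (Int.natCast_nonneg _)
        push_cast at h6 ⊢
        linarith
      have ha : |t i - t j| ≤ ((2 * (V * h) : ℕ) : ℤ) := by
        have := abs_sub (t i) (t j)
        push_cast at h2 h2' ⊢
        linarith
      have hb : |t i * i - t j * j| ≤ ((2 * (V * h * h) : ℕ) : ℤ) := by
        have := abs_sub (t i * i) (t j * j)
        push_cast at hb1 hb2 ⊢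
        linarith
      obtain ⟨h7, h8⟩ := hgen _ _ ha hb heq3
      have h9 : t i = t j := by linarith
      rw [← h9] at h8
      have h10 : t i * ((i : ℤ) - j) = 0 := by linarith
      rcases mul_eq_zero.mp h10 with h11 | h11
      · exact absurd h11 h1
      · have : (i : ℤ) = j := by linarith
        exact_mod_cast this
  rw [Finset.card_range, Finset.card_erase_of_mem (mem_spt.mpr hx')] at hmain
  have hpos : 0 < (spt (act (PG κ (Finset.range h)) f)).card :=
    Finset.card_pos.mpr ⟨x, mem_spt.mpr hx'⟩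
  omega

end Pool.Agent.H557
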