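import Pool.Agent.H557.MainK

/-!
Interval version of the window theorem and the almost-all version.
-/

namespace Pool.Agent.H557

open Finset Filter Topology

theorem LL_le (k : ℕ) : (LL k : ℝ) ≤ Real.exp (5.4 * k) := by
  have h1 : Chebyshev.psi (k : ℝ) = Real.log (LL k) := Chebyshev.psi_eq_log_lcmUpto k
  have h2 := Chebyshev.psi_le_const_mul_self (x := (k : ℝ)) (Nat.cast_nonneg k)
  rw [h1] at h2
  have h3 : (0 : ℝ) < LL k := by exact_mod_cast LL_pos k
  have hlog4 : Real.log 4 ≤ 1.39 := by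
    rw [show (4 : ℝ) = 2 ^ 2 by norm_num, Real.log_pow]
    have := Real.log_two_lt_d9
    push_cast
    linarith
  have h4 : Real.log (LL k) ≤ 5.4 * k := by
    have h5 : (0 : ℝ) ≤ k := Nat.cast_nonneg k
    nlinarith
  exact (Real.log_le_iff_le_exp h3).mp h4

theorem PP_le (k : ℕ) : (PP k : ℝ) ≤ Real.exp (6.1 * k) := by
  unfold PP
  push_cast
  have h1 : (2 : ℝ) ^ k ≤ Real.exp (0.7 * k) := by
    have h2 : (2 : ℝ) ≤ Real.exp 0.7 := by
      have h3 : Real.log 2 ≤ 0.7 := by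
        have := Real.log_two_lt_d9
        linarith
      exact (Real.log_le_iff_le_exp (by norm_num)).mp h3
    calc (2 : ℝ) ^ k ≤ (Real.exp 0.7) ^ k := pow_le_pow_left₀ (by norm_num) h2 k
      _ = Real.exp (0.7 * k) := by
        rw [← Real.exp_nat_mul]
        congr 1
        ring
  calc (2 : ℝ) ^ k * LL k ≤ Real.exp (0.7 * k) * Real.exp (5.4 * k) :=
        mul_le_mul h1 (LL_le k) (Nat.cast_nonneg _) (Real.exp_pos _).le
    _ = Real.exp (6.1 * k) := by
        rw [← Real.exp_add]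
        congr 1
        ring

/-- The numerical comparison of error terms. -/
theorem error_cmp {K W : ℝ} {c : ℝ} (hK : 12960000 ≤ K) (hW1 : 1 ≤ W) (hWK : W ≤ K) (hc0 : 0 < c)
    (hc1 : c ≤ 1 / 800) :
    Real.exp (-(W / (40 * Real.log K))) + Real.exp (-K) ≤ Real.exp (-(c * W / Real.log K)) := by
  have hK0 : 0 < K := by linarith
  have hlog1 : 1 ≤ Real.log K := by
    rw [Real.le_log_iff_exp_le (by linarith)]
    have := Real.exp_one_lt_d9
    linarith
  have hlogpos : 0 < Real.log K := by linarith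
  have hlogK : Real.log K ≤ K := (Real.log_le_sub_one_of_pos hK0).trans (by linarith)
  set a := W / (40 * Real.log K) with ha
  set b := c * W / Real.log K with hb
  have hbW : b ≤ W / (800 * Real.log K) := by
    rw [hb, div_le_div_iff₀ hlogpos (by positivity)]
    have : c * W ≤ 1 / 800 * W := mul_le_mul_of_nonneg_right hc1 (by linarith)
    nlinarith
  have hab : W / (80 * Real.log K) ≤ a - b := by
    have e1 : a = 20 * (W / (800 * Real.log K)) := by
      rw [ha]; field_simp; norm_num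
    have e2 : W / (80 * Real.log K) = 10 * (W / (800 * Real.log K)) := by
      field_simp; norm_num
    have e3 : 0 ≤ W / (800 * Real.log K) := by positivity
    rw [e2, e1]
    linarith
  have hab2 : 1 / (80 * K) ≤ a - b := by
    refine le_trans ?_ hab
    rw [div_le_div_iff₀ (by positivity) (by positivity)]
    nlinarith
  have haK : a ≤ K / 40 := by
    rw [ha, div_le_div_iff₀ (by positivity) (by norm_num)]
    nlinarith
  have h1 : Real.exp (-b) = Real.exp (-a) * Real.exp (a - b) := by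
    rw [← Real.exp_add]
    congr 1
    ring
  have h2 : 1 + (a - b) ≤ Real.exp (a - b) := by
    have := Real.add_one_le_exp (a - b)
    linarith
  have h3 : Real.exp (-a) * (1 + (a - b)) ≤ Real.exp (-b) := by
    rw [h1]
    exact mul_le_mul_of_nonneg_left h2 (Real.exp_pos _).le
  have h4 : Real.exp (-(K / 40)) ≤ Real.exp (-a) := Real.exp_le_exp.mpr (by linarith)
  have h5 : Real.exp (-(K / 40)) * (1 / (80 * K)) ≤ Real.exp (-a) * (a - b) :=
    mul_le_mul h4 hab2 (by positivity) (Real.exp_pos _).le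
  have h6 : Real.exp (-K) ≤ Real.exp (-(K / 40)) * (1 / (80 * K)) := by
    have h7 : 80 * K ≤ Real.exp (K - K / 40) := by
      have h8 := Real.quadratic_le_exp_of_nonneg (x := K - K / 40) (by linarith)
      nlinarith
    rw [mul_one_div, le_div_iff₀ (by positivity)]
    calc Real.exp (-K) * (80 * K) ≤ Real.exp (-K) * Real.exp (K - K / 40) :=
          mul_le_mul_of_nonneg_left h7 (Real.exp_pos _).le
      _ = Real.exp (-(K / 40)) := by
          rw [← Real.exp_add]
          congr 1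
          ring
  linarith

/-- The pattern predicate. -/
def Pat (k q ρ : ℕ) (D : Finset ℕ) (w : ℕ → ZMod 2) (n : ℕ) : Prop :=
  n ≡ ρ [MOD q] ∧ ∀ d ∈ D, ((rp k (n + d) : ℕ) : ZMod 2) = w d

instance (k q ρ : ℕ) (D : Finset ℕ) (w : ℕ → ZMod 2) : DecidablePred (Pat k q ρ D w) := by
  intro n
  unfold Pat
  infer_instance

theorem Pat_iff {k : ℕ} (hk0 : 1 ≤ k) (q ρ : ℕ) (D : Finset ℕ) (w : ℕ → ZMod 2) (n : ℕ) :
    Pat k q ρ D w n ↔ ((q : ℤ) ∣ (n : ℤ) - ρ ∧ ∀ d ∈ D, cc k ((n : ℤ) + d) = w d) := by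
  unfold Pat
  have h1 : n ≡ ρ [MOD q] ↔ (q : ℤ) ∣ (n : ℤ) - ρ := by
    rw [Nat.ModEq.comm, Nat.modEq_iff_dvd]
  have h2 : ∀ d : ℕ, cc k ((n : ℤ) + d) = ((rp k (n + d) : ℕ) : ZMod 2) := by
    intro d
    rw [← cc_nat hk0]
    push_cast
    rfl
  simp only [h1, h2]

theorem Pat_periodic {k : ℕ} (hk0 : 1 ≤ k) (q ρ : ℕ) (D : Finset ℕ) (w : ℕ → ZMod 2) (n : ℕ) :
    Pat k q ρ D w (n + q * PP k) ↔ Pat k q ρ D w n := by
  rw [Pat_iff hk0, Pat_iff hk0]
  have h1 : (q : ℤ) ∣ ((n + q * PP k : ℕ) : ℤ) - ρ ↔ (q : ℤ) ∣ (n : ℤ) - ρ := by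
    push_cast
    rw [show (n : ℤ) + (q : ℤ) * (PP k : ℤ) - ρ = (q : ℤ) * (PP k : ℤ) + (n - ρ) by ring]
    exact (Int.dvd_add_right (dvd_mul_right _ _))
  have h2 : ∀ d : ℕ, cc k (((n + q * PP k : ℕ) : ℤ) + d) = cc k ((n : ℤ) + d) := by
    intro d
    have := periodic_mul_int (cc_periodic k) ((n : ℤ) + d) q
    rw [← this]
    congr 1
    push_cast
    ring
  simp only [h1, h2]

theorem Ico_filter_card (p : ℕ → Prop) [DecidablePred p] (x N : ℕ) :
    ((Finset.Ico x (x + N)).filter p).card = ((Finset.range N).filter fun n => p (x + n)).card := by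
  symm
  refine Finset.card_bij (fun n _ => x + n) ?_ ?_ ?_
  · intro n hn
    rw [Finset.mem_filter, Finset.mem_range] at hn
    rw [Finset.mem_filter, Finset.mem_Ico]
    exact ⟨⟨by omega, by omega⟩, hn.2⟩
  · intro a _ b _ h
    omega
  · intro m hm
    rw [Finset.mem_filter, Finset.mem_Ico] at hm
    refine ⟨m - x, ?_, by omega⟩
    rw [Finset.mem_filter, Finset.mem_range]
    refine ⟨by omega, ?_⟩
    rw [show x + (m - x) = m by omega]
    exact hm.2

/-- The window theorem for intervals. -/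
theorem window_main : ∃ c : ℝ, 0 < c ∧ c ≤ 1 ∧ ∀ K H L W : ℕ, 2 ≤ K → 1 ≤ H → 1 ≤ L → 1 ≤ W →
    ((L : ℝ) * W) ^ 2 * H ^ 3 * Real.log K ≤ c * K →
    ∃ E : Finset ℕ, E.card ≤ L * W ∧ ∀ k, K ≤ k → k ≤ K + H → k ∉ E →
      ∀ q : ℕ, 1 ≤ q → Real.log q ≤ c * K →
        ∀ (ρ : ℕ) (D : Finset ℕ) (w : ℕ → ZMod 2), D.card ≤ L → (∀ d ∈ D, 5 * d ≤ K) →
          ∀ x N : ℕ, (q : ℝ) * Real.exp (8 * K) ≤ N →
          |2 ^ D.card * q * ((((Finset.Ico x (x + N)).filter (Pat k q ρ D w)).card : ℝ) / N) - 1| ≤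
            2 ^ D.card * Real.exp (-(c * W / Real.log K)) := by
  obtain ⟨c, hc0, hc1, hmain⟩ := window_core
  refine ⟨c, hc0, by linarith, ?_⟩
  intro K H L W hK2 hH hL hW hyp
  obtain ⟨⟨hKbig, hHH, hWK⟩, E, hEcard, hE⟩ := hmain K H L W hK2 hH hL hW hyp
  refine ⟨E, hEcard, ?_⟩
  intro k hk1 hk2 hkE q hq hlogq ρ D w hDL hD5 x N hN
  have hcore := hE k hk1 hk2 hkE q hq hlogq ρ D w hDL hD5
  have hk0 : 1 ≤ k := by omega
  have hKr : (12960000 : ℝ) ≤ K := by exact_mod_cast hKbig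
  have hq0 : (0 : ℝ) < q := by exact_mod_cast hq
  have hPP0 : (0 : ℝ) < PP k := by exact_mod_cast PP_pos k
  have hPpos : 0 < q * PP k := Nat.mul_pos (by omega) (PP_pos k)
  have hN0 : (0 : ℝ) < N := lt_of_lt_of_le (by positivity) hN
  have hN0' : 0 < N := by exact_mod_cast hN0
  have hcount := count_interval hPpos (Pat k q ρ D w) (Pat_periodic hk0 q ρ D w) x N hN0'
  rw [Ico_filter_card]
  have hcnt_eq : ((Finset.range (q * PP k)).filter (Pat k q ρ D w)).card =
      ((Finset.range (q * PP k)).filter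
            (fun n : ℕ => (q : ℤ) ∣ (n : ℤ) - ρ ∧ ∀ d ∈ D, cc k ((n : ℤ) + d) = w d)).card := by
    congr 1
    refine Finset.filter_congr fun n _ => ?_
    exact Pat_iff hk0 q ρ D w n
  rw [← hcnt_eq] at hcore
  set cnt : ℝ := (((Finset.range (q * PP k)).filter (Pat k q ρ D w)).card : ℝ) with hcnt
  set f : ℝ := (((Finset.range N).filter fun n => Pat k q ρ D w (x + n)).card : ℝ) with hf
  -- cnt ≤ PP k
  have hcntle : cnt ≤ PP k := by
    have h1 := sum_class (q := q) (by omega) ρ (PP k)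
    rw [← h1, hcnt, Finset.sum_boole]
    have h2 : ((Finset.range (q * PP k)).filter (Pat k q ρ D w)).card ≤
        ((Finset.range (q * PP k)).filter (fun n : ℕ => (q : ℤ) ∣ (n : ℤ) - ρ)).card := by
      apply Finset.card_le_card
      intro n hn
      rw [Finset.mem_filter] at hn ⊢
      exact ⟨hn.1, ((Pat_iff hk0 q ρ D w n).mp hn.2).1⟩
    exact_mod_cast h2
  -- size of PP k
  have hPPle : (PP k : ℝ) ≤ Real.exp (7 * K) := by
    refine (PP_le k).trans (Real.exp_le_exp.mpr ?_)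
    have hH100 : (H : ℝ) ≤ K / 100 := by
      have h1 : (H : ℝ) * H ≤ K := by exact_mod_cast hHH
      by_contra hlt
      push Not at hlt
      have h2 : (K : ℝ) / 100 * (K / 100) < H * H :=
        mul_lt_mul'' hlt hlt (by positivity) (by positivity)
      nlinarith
    have h3 : (k : ℝ) ≤ K + H := by exact_mod_cast hk2
    nlinarith
  have h2D : (0 : ℝ) < 2 ^ D.card := by positivity
  set ε := Real.exp (-(W / (40 * Real.log K))) with hε
  have e1 : 2 ^ D.card * (q : ℝ) * (f / N) - 1 =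
      2 ^ D.card * q * (f / N - cnt / ((q * PP k : ℕ) : ℝ)) + (2 ^ D.card * cnt - PP k) / PP k := by
    push_cast
    field_simp
    ring
  have b1 : |2 ^ D.card * (q : ℝ) * (f / N - cnt / ((q * PP k : ℕ) : ℝ))| ≤
      2 ^ D.card * Real.exp (-K) := by
    rw [abs_mul, abs_of_pos (by positivity : (0 : ℝ) < 2 ^ D.card * (q : ℝ)), mul_assoc]
    apply mul_le_mul_of_nonneg_left _ h2D.le
    have h4 : (q : ℝ) * |f / N - cnt / ((q * PP k : ℕ) : ℝ)| ≤ q * (Real.exp (7 * K) / N) := by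
      apply mul_le_mul_of_nonneg_left _ hq0.le
      refine hcount.trans ?_
      exact div_le_div_of_nonneg_right (hcntle.trans hPPle) hN0.le
    refine h4.trans ?_
    rw [← mul_div_assoc, div_le_iff₀ hN0]
    calc (q : ℝ) * Real.exp (7 * K) = Real.exp (-K) * (q * Real.exp (8 * K)) := by
          rw [show (8 * (K : ℝ)) = 7 * K + K by ring, Real.exp_add]
          have : Real.exp (-(K : ℝ)) * Real.exp K = 1 := by
            rw [← Real.exp_add]; simp
          calc (q : ℝ) * Real.exp (7 * K) = q * Real.exp (7 * K) * 1 := by ring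
            _ = q * Real.exp (7 * K) * (Real.exp (-(K : ℝ)) * Real.exp K) := by rw [this]
            _ = _ := by ring
      _ ≤ Real.exp (-K) * N := mul_le_mul_of_nonneg_left hN (Real.exp_pos _).le
  have b2 : |(2 ^ D.card * cnt - PP k) / PP k| ≤ 2 ^ D.card * ε := by
    rw [abs_div, abs_of_pos hPP0, div_le_iff₀ hPP0]
    calc _ ≤ 2 ^ D.card * (PP k * ε) := hcore
      _ = _ := by ring
  rw [e1]
  refine (abs_add_le _ _).trans ((add_le_add b1 b2).trans ?_)
  rw [← mul_add]
  apply mul_le_mul_of_nonneg_left _ h2D.le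
  have hW1 : (1 : ℝ) ≤ W := by exact_mod_cast hW
  have hWKr : (W : ℝ) ≤ K := by exact_mod_cast hWK
  have := error_cmp hKr hW1 hWKr hc0 (by linarith)
  linarith

end Pool.Agent.H557
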