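import Pool.Agent.H557.Bias

/-!
Assembly of the uniform window theorem.
-/

namespace Pool.Agent.H557

open Finset Filter Topology

theorem prod_le_exp {T : Finset ℕ} {W K : ℕ} (hT : ∀ ℓ ∈ T, 0 < ℓ ∧ ℓ ≤ K ∧ 2 * W ≤ ℓ) :
    ∏ ℓ ∈ T, (1 - 2 * (W : ℝ) / ℓ) ≤ Real.exp (-(2 * W * T.card / K)) := by
  have h1 : ∏ ℓ ∈ T, (1 - 2 * (W : ℝ) / ℓ) ≤ ∏ _ℓ ∈ T, Real.exp (-(2 * W / K)) := by
    refine Finset.prod_le_prod ?_ ?_
    · intro ℓ hℓ
      obtain ⟨h0, -, h2⟩ := hT ℓ hℓ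
      have h0' : (0 : ℝ) < ℓ := by exact_mod_cast h0
      have h2' : 2 * (W : ℝ) ≤ ℓ := by exact_mod_cast h2
      rw [sub_nonneg, div_le_one h0']
      exact h2'
    · intro ℓ hℓ
      obtain ⟨h0, h1, -⟩ := hT ℓ hℓ
      have h0' : (0 : ℝ) < ℓ := by exact_mod_cast h0
      have h1' : (ℓ : ℝ) ≤ K := by exact_mod_cast h1
      have h3 : 2 * (W : ℝ) / K ≤ 2 * W / ℓ :=
        div_le_div_of_nonneg_left (by positivity) h0' h1'
      have h4 := Real.add_one_le_exp (-(2 * (W : ℝ) / K))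
      linarith
  refine h1.trans (le_of_eq ?_)
  rw [Finset.prod_const, ← Real.exp_nat_mul]
  congr 1
  ring

/-- primes of `QS` dividing `q` -/
theorem card_dvd_le {K H q : ℕ} (hK : 4 ≤ K) (hq : 1 ≤ q) :
    (((QS K H).filter fun ℓ => ℓ ∣ q).card : ℝ) * Real.log K ≤ 2 * Real.log q := by
  set T := (QS K H).filter fun ℓ => ℓ ∣ q with hT
  have hprime : ∀ ℓ ∈ T, ℓ.Prime := by
    intro ℓ hℓ
    have h1 := (Finset.mem_filter.mp hℓ).1
    unfold QS at h1
    exact (Finset.mem_filter.mp h1).2.1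
  have hlow : ∀ ℓ ∈ T, K < 2 * ℓ := by
    intro ℓ hℓ
    have h1 := (Finset.mem_filter.mp hℓ).1
    unfold QS at h1
    have := (Finset.mem_filter.mp h1).2.2
    omega
  have hdvd : ∏ ℓ ∈ T, ℓ ∣ q := by
    apply Finset.prod_primes_dvd
    · intro ℓ hℓ
      exact (hprime ℓ hℓ).prime
    · intro ℓ hℓ
      exact (Finset.mem_filter.mp hℓ).2
  have hle := Nat.le_of_dvd (by omega) hdvd
  have h1 : ((K : ℝ) / 2) ^ T.card ≤ q := by
    calc ((K : ℝ) / 2) ^ T.card = ∏ _ℓ ∈ T, (K : ℝ) / 2 := by rw [Finset.prod_const]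
      _ ≤ ∏ ℓ ∈ T, (ℓ : ℝ) := by
          refine Finset.prod_le_prod (fun _ _ => by positivity) fun ℓ hℓ => ?_
          have : (K : ℝ) ≤ 2 * ℓ := by exact_mod_cast (hlow ℓ hℓ).le
          linarith
      _ = ((∏ ℓ ∈ T, ℓ : ℕ) : ℝ) := by push_cast; rfl
      _ ≤ q := by exact_mod_cast hle
  have hK4 : (4 : ℝ) ≤ K := by exact_mod_cast hK
  have h2 := Real.log_le_log (by positivity) h1
  rw [Real.log_pow] at h2
  have h3 : Real.log K ≤ 2 * Real.log ((K : ℝ) / 2) := by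
    rw [← Real.log_rpow (by positivity)]
    apply Real.log_le_log (by positivity)
    rw [show ((2 : ℝ)) = ((2 : ℕ) : ℝ) by norm_num, Real.rpow_natCast]
    push_cast
    nlinarith
  have h4 : (0 : ℝ) ≤ T.card := Nat.cast_nonneg _
  nlinarith

open scoped Classical in
/-- The uniform window theorem, in terms of counts over a full period. -/
theorem window_core : ∃ c : ℝ, 0 < c ∧ c * 12960000 ≤ 1 / 100 ∧
    ∀ K H L W : ℕ, 2 ≤ K → 1 ≤ H → 1 ≤ L → 1 ≤ W →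
    ((L : ℝ) * W) ^ 2 * H ^ 3 * Real.log K ≤ c * K →
    (12960000 ≤ K ∧ H * H ≤ K ∧ W ≤ K) ∧
    ∃ E : Finset ℕ, E.card ≤ L * W ∧ ∀ k, K ≤ k → k ≤ K + H → k ∉ E →
      ∀ q : ℕ, 1 ≤ q → Real.log q ≤ c * K →
        ∀ (ρ : ℕ) (D : Finset ℕ) (w : ℕ → ZMod 2), D.card ≤ L → (∀ d ∈ D, 5 * d ≤ K) →
          |2 ^ D.card * (((Finset.range (q * PP k)).filter
            (fun n : ℕ => (q : ℤ) ∣ (n : ℤ) - ρ ∧ ∀ d ∈ D, cc k ((n : ℤ) + d) = w d)).card : ℝ)
              - PP k| ≤ 2 ^ D.card * (PP k * Real.exp (-(W / (40 * Real.log K)))) := by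
  obtain ⟨c, hc0, hc1⟩ : ∃ c : ℝ, 0 < c ∧ c * 12960000 ≤ 1 / 100 :=
    ⟨1 / 1296000000, by norm_num, by norm_num⟩
  refine ⟨c, hc0, hc1, ?_⟩
  intro K H L W hK2 hH hL hW hyp
  have hKr2 : (2 : ℝ) ≤ K := by exact_mod_cast hK2
  have hlogK : Real.log 2 ≤ Real.log K := Real.log_le_log (by norm_num) hKr2
  have hlog2 : (0.69 : ℝ) ≤ Real.log 2 := by
    have := Real.log_two_gt_d9
    linarith
  have hlogpos : 0 < Real.log K := by linarith
  have hLr : (1 : ℝ) ≤ L := by exact_mod_cast hL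
  have hWr : (1 : ℝ) ≤ W := by exact_mod_cast hW
  have hHr : (1 : ℝ) ≤ H := by exact_mod_cast hH
  have hLW : (1 : ℝ) ≤ (L : ℝ) * W := one_le_mul_of_one_le_of_one_le hLr hWr
  have hH3 : (1 : ℝ) ≤ (H : ℝ) ^ 3 := one_le_pow₀ hHr
  have hLW2 : (1 : ℝ) ≤ ((L : ℝ) * W) ^ 2 := one_le_pow₀ hLW
  have hprod1 : (1 : ℝ) ≤ ((L : ℝ) * W) ^ 2 * H ^ 3 := one_le_mul_of_one_le_of_one_le hLW2 hH3
  -- K is large
  have hKbig : 12960000 ≤ K := by
    by_contra hlt
    push Not at hlt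
    have h1 : (K : ℝ) < 12960000 := by exact_mod_cast hlt
    have h2 : Real.log K ≤ ((L : ℝ) * W) ^ 2 * H ^ 3 * Real.log K :=
      le_mul_of_one_le_left hlogpos.le hprod1
    have h3 : c * K ≤ c * 12960000 := mul_le_mul_of_nonneg_left h1.le hc0.le
    linarith
  have hKr : (12960000 : ℝ) ≤ K := by exact_mod_cast hKbig
  have hlog1 : 1 ≤ Real.log K := by
    rw [Real.le_log_iff_exp_le (by linarith)]
    have := Real.exp_one_lt_d9
    linarith
  have hK0 : (0 : ℝ) < K := by linarith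
  have hcle : c ≤ 1 / 800 := by linarith
  have hcK : c * K ≤ K / 800 := by
    have := mul_le_mul_of_nonneg_right hcle hK0.le
    linarith
  -- H * H ≤ K
  have hHH : H * H ≤ K := by
    have h1 : (H : ℝ) * H ≤ K := by
      have h2 : (H : ℝ) * H ≤ H ^ 3 := by
        rw [show (H : ℝ) ^ 3 = (H * H) * H by ring]
        exact le_mul_of_one_le_right (by positivity) hHr
      have h3 : (H : ℝ) ^ 3 ≤ ((L : ℝ) * W) ^ 2 * H ^ 3 :=
        le_mul_of_one_le_left (by positivity) hLW2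
      have h4 : ((L : ℝ) * W) ^ 2 * H ^ 3 ≤ ((L : ℝ) * W) ^ 2 * H ^ 3 * Real.log K :=
        le_mul_of_one_le_right (by positivity) hlog1
      linarith
    exact_mod_cast h1
  have hmany := many_primes K H hKbig hHH
  have hmany' : (K : ℝ) ≤ 10 * (((QS K H).card : ℝ) * Real.log K) := by
    rw [div_le_iff₀ (by positivity)] at hmany
    linarith
  set S := QS K H with hS
  have hprime : ∀ ℓ ∈ S, ℓ.Prime := by
    intro ℓ hℓ
    rw [hS] at hℓ
    unfold QS at hℓ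
    exact (Finset.mem_filter.mp hℓ).2.1
  have hlow : ∀ ℓ ∈ S, K + H < 2 * ℓ := by
    intro ℓ hℓ
    rw [hS] at hℓ
    unfold QS at hℓ
    exact (Finset.mem_filter.mp hℓ).2.2
  have hup : ∀ ℓ ∈ S, ℓ ≤ K := by
    intro ℓ hℓ
    rw [hS] at hℓ
    unfold QS at hℓ
    exact (Finset.mem_Icc.mp (Finset.mem_filter.mp hℓ).1).2
  have hcardS : 20 * (L * W) ^ 2 * H ^ 3 ≤ S.card := by
    have h1 : (20 : ℝ) * ((L : ℝ) * W) ^ 2 * H ^ 3 * Real.log K ≤ (S.card : ℝ) * Real.log K := by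
      have e : (20 : ℝ) * ((L : ℝ) * W) ^ 2 * H ^ 3 * Real.log K =
        20 * (((L : ℝ) * W) ^ 2 * H ^ 3 * Real.log K) := by ring
      rw [e]
      linarith
    have h2 := le_of_mul_le_mul_right h1 hlogpos
    exact_mod_cast h2
  have hSK : S.card ≤ K := by
    have hsub : S ⊆ Finset.Icc 1 K := by
      intro x hx
      rw [Finset.mem_Icc]
      exact ⟨(hprime x hx).one_le, hup x hx⟩
    have := Finset.card_le_card hsub
    simpa using this
  have hV : 1 ≤ L * W := Nat.one_le_iff_ne_zero.mpr (by positivity)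
  have hW20 : 20 * W ≤ K := by
    have h3 : W ≤ (L * W) ^ 2 * H ^ 3 := by
      calc W = 1 * W * 1 := by ring
        _ ≤ (L * W) * (L * W) * H ^ 3 := by
            apply Nat.mul_le_mul
            · apply Nat.mul_le_mul hV
              exact Nat.le_mul_of_pos_left _ hL
            · exact Nat.one_le_iff_ne_zero.mpr (by positivity)
        _ = (L * W) ^ 2 * H ^ 3 := by ring
    have h4 : 20 * (L * W) ^ 2 * H ^ 3 = 20 * ((L * W) ^ 2 * H ^ 3) := by ring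
    omega
  refine ⟨⟨hKbig, hHH, by omega⟩, ?_⟩
  set Dp := K / 5 + 1 with hDp
  have hDp4 : 4 * Dp ≤ K := by omega
  refine ⟨{k ∈ Finset.Icc K (K + H) | 3 * S.card < 4 * {ℓ ∈ S | Bad L W Dp k ℓ}.card},
    exceptional_card S hprime hlow hup hDp4 hV hH hcardS, ?_⟩
  intro k hk1 hk2 hkE q hq hlogq ρ D w hDL hD5
  -- the good primes
  have hfew : 4 * {ℓ ∈ S | Bad L W Dp k ℓ}.card ≤ 3 * S.card := by
    by_contra hlt
    push Not at hlt
    exact hkE (Finset.mem_filter.mpr ⟨Finset.mem_Icc.mpr ⟨hk1, hk2⟩, hlt⟩)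
  set T := {ℓ ∈ S | ¬ Bad L W Dp k ℓ ∧ ¬ ℓ ∣ q} with hT
  have hTcard : S.card ≤ {ℓ ∈ S | Bad L W Dp k ℓ}.card + {ℓ ∈ S | ℓ ∣ q}.card + T.card := by
    have hsub : S ⊆ ({ℓ ∈ S | Bad L W Dp k ℓ} ∪ {ℓ ∈ S | ℓ ∣ q}) ∪ T := by
      intro ℓ hℓ
      rw [Finset.mem_union, Finset.mem_union, hT, Finset.mem_filter, Finset.mem_filter,
        Finset.mem_filter]
      tauto
    refine (Finset.card_le_card hsub).trans ((Finset.card_union_le _ _).trans ?_)
    exact Nat.add_le_add_right (Finset.card_union_le _ _) _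
  have hdq := card_dvd_le (K := K) (H := H) (q := q) (by omega) hq
  rw [← hS] at hdq
  have hTbig : (K : ℝ) ≤ 80 * ((T.card : ℝ) * Real.log K) := by
    have h1 : (S.card : ℝ) ≤ {ℓ ∈ S | Bad L W Dp k ℓ}.card + {ℓ ∈ S | ℓ ∣ q}.card + T.card := by
      exact_mod_cast hTcard
    have h2 : (4 : ℝ) * {ℓ ∈ S | Bad L W Dp k ℓ}.card ≤ 3 * S.card := by exact_mod_cast hfew
    have h3 : (S.card : ℝ) / 4 ≤ {ℓ ∈ S | ℓ ∣ q}.card + T.card := by linarith
    have h4 : (S.card : ℝ) / 4 * Real.log K ≤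
        ({ℓ ∈ S | ℓ ∣ q}.card + T.card) * Real.log K :=
      mul_le_mul_of_nonneg_right h3 hlogpos.le
    have h6 : (S.card : ℝ) / 4 * Real.log K = ((S.card : ℝ) * Real.log K) / 4 := by ring
    have h7 : (({ℓ ∈ S | ℓ ∣ q}.card : ℝ) + T.card) * Real.log K =
      ({ℓ ∈ S | ℓ ∣ q}.card : ℝ) * Real.log K + T.card * Real.log K := by ring
    rw [h6, h7] at h4
    linarith
  have hprodT := prod_le_exp (T := T) (W := W) (K := K) (by
    intro ℓ hℓ
    have hℓS := (Finset.mem_filter.mp hℓ).1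
    refine ⟨(hprime ℓ hℓS).pos, hup ℓ hℓS, ?_⟩
    have h1 := hlow ℓ hℓS
    omega)
  set ε := Real.exp (-(W / (40 * Real.log K))) with hε
  have hprodε : ∏ ℓ ∈ T, (1 - 2 * (W : ℝ) / ℓ) ≤ ε := by
    refine hprodT.trans ?_
    rw [hε]
    apply Real.exp_le_exp.mpr
    rw [neg_le_neg_iff]
    rw [div_le_div_iff₀ (by positivity) hK0]
    have h1 : (W : ℝ) * K ≤ W * (80 * ((T.card : ℝ) * Real.log K)) :=
      mul_le_mul_of_nonneg_left hTbig (by positivity)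
    have h4 : (W : ℝ) * (80 * ((T.card : ℝ) * Real.log K)) =
      2 * W * T.card * (40 * Real.log K) := by ring
    linarith
  have hbias : ∀ B ⊆ D, B.Nonempty →
      |∑ n ∈ Finset.range (q * PP k), (if (q : ℤ) ∣ (n : ℤ) - ρ then (1 : ℝ) else 0) *
        chi (∑ d ∈ B, cc k ((n : ℤ) + d))| ≤ (PP k : ℝ) * ε := by
    intro B hBD hBne
    have h1 := bias (L := L) (W := W) (Dp := Dp) (k := k) (q := q) (by omega) ρ T
      (fun ℓ hℓ => hprime ℓ (Finset.mem_filter.mp hℓ).1)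
      (fun ℓ hℓ => by
        have := hlow ℓ (Finset.mem_filter.mp hℓ).1
        omega)
      (fun ℓ hℓ => by
        have := hlow ℓ (Finset.mem_filter.mp hℓ).1
        omega)
      (fun ℓ hℓ => (hup ℓ (Finset.mem_filter.mp hℓ).1).trans hk1)
      (fun ℓ hℓ => (Finset.mem_filter.mp hℓ).2.1)
      (fun ℓ hℓ => (Finset.mem_filter.mp hℓ).2.2)
      (M := K / 5) (by omega) (B := B) (fun d hd => by
        have := hD5 d (hBD hd)
        omega) hBne ((Finset.card_le_card hBD).trans hDL)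
    exact h1.trans (mul_le_mul_of_nonneg_left hprodε (Nat.cast_nonneg _))
  exact pattern_count (k := k) (q := q) (by omega) ρ D w ε hbias (Real.exp_pos _).le

end Pool.Agent.H557
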