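import Pool.Agent.H557.Shift

/-!
Generating function of the number of partitions with all parts at most `k`, modulo 2.
-/

namespace Pool.Agent.H557

open Finset PowerSeries

/-- The number of partitions of `n` all of whose parts are at most `k`. -/
def rp (k n : ℕ) : ℕ := (Nat.Partition.restricted n (· ≤ k)).card

open scoped PowerSeries.WithPiTopology in
theorem rp_gf (k : ℕ) :
    (PowerSeries.mk fun n => ((rp k n : ℕ) : ZMod 2)) * ∏ i ∈ Finset.Icc 1 k, (1 - X ^ i) = 1 := by
  letI : TopologicalSpace (ZMod 2) := ⊥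
  haveI : DiscreteTopology (ZMod 2) := ⟨rfl⟩
  have h1 := Nat.Partition.hasProd_powerSeriesMk_card_restricted (ZMod 2) (fun i => i ≤ k)
  have h2 : HasProd (fun i : ℕ => if i + 1 ≤ k then
      ∑' j : ℕ, (X : PowerSeries (ZMod 2)) ^ ((i + 1) * j) else 1)
      (∏ i ∈ Finset.range k, if i + 1 ≤ k then
      ∑' j : ℕ, (X : PowerSeries (ZMod 2)) ^ ((i + 1) * j) else 1) := by
    apply hasProd_prod_of_ne_finset_one
    intro b hb
    have : ¬ (b + 1 ≤ k) := by simpa using hb
    rw [if_neg this]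
  have h3 := h1.unique h2
  have h4 : (PowerSeries.mk fun n => ((rp k n : ℕ) : ZMod 2)) =
      ∏ i ∈ Finset.range k, ∑' j : ℕ, (X : PowerSeries (ZMod 2)) ^ ((i + 1) * j) := by
    unfold rp
    rw [h3]
    refine Finset.prod_congr rfl fun i hi => ?_
    rw [if_pos (Nat.succ_le_of_lt (Finset.mem_range.mp hi))]
  rw [h4]
  have h5 : ∏ i ∈ Finset.Icc 1 k, (1 - (X : PowerSeries (ZMod 2)) ^ i) =
      ∏ i ∈ Finset.range k, (1 - (X : PowerSeries (ZMod 2)) ^ (i + 1)) := by
    rw [Finset.range_eq_Ico, Finset.prod_Ico_add' (fun i => (1 - (X : PowerSeries (ZMod 2)) ^ i)) 0 k 1]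
    rfl
  rw [h5, ← Finset.prod_mul_distrib]
  refine Finset.prod_eq_one fun i _ => ?_
  simp_rw [pow_mul]
  exact WithPiTopology.tsum_pow_mul_one_sub_of_constantCoeff_eq_zero (by simp)

end Pool.Agent.H557
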