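import Mathlib

/-!
Many primes in `(n, 2n]`.
-/

namespace Pool.Agent.H557

open Finset Nat

/-- The number of primes in `(n, 2n]`. -/
def npr (n : ℕ) : ℕ := ((Finset.Ioc n (2 * n)).filter Nat.Prime).card

theorem centralBinom_le (n : ℕ) (n_large : 2 < n) :
    centralBinom n ≤ (2 * n) ^ Nat.sqrt (2 * n) * 4 ^ (2 * n / 3) * (2 * n) ^ npr n := by
  have n_pos : 0 < n := (Nat.zero_le _).trans_lt n_large
  have n2_pos : 1 ≤ 2 * n := mul_pos (zero_lt_two' ℕ) n_pos
  let f : ℕ → ℕ := fun x => x ^ n.centralBinom.factorization x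
  have hsplit : centralBinom n = (∏ p ∈ Finset.range (2 * n / 3 + 1), f p) *
      ∏ p ∈ Finset.Ico (2 * n / 3 + 1) (2 * n + 1), f p := by
    rw [Finset.prod_range_mul_prod_Ico _ (by omega)]
    exact (n.prod_pow_factorization_centralBinom).symm
  rw [hsplit]
  apply mul_le_mul'
  · let S := {p ∈ Finset.range (2 * n / 3 + 1) | Nat.Prime p}
    have : ∏ x ∈ S, f x = ∏ x ∈ Finset.range (2 * n / 3 + 1), f x := by
      refine Finset.prod_filter_of_ne fun p _ h => ?_
      contrapose h; dsimp only [f]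
      rw [factorization_eq_zero_of_not_prime n.centralBinom h, _root_.pow_zero]
    rw [← this, ← Finset.prod_filter_mul_prod_filter_not S (· ≤ Nat.sqrt (2 * n))]
    apply mul_le_mul'
    · refine (Finset.prod_le_prod' fun p _ => (?_ : f p ≤ 2 * n)).trans ?_
      · exact pow_factorization_choose_le (mul_pos two_pos n_pos)
      have : (Finset.Icc 1 (Nat.sqrt (2 * n))).card = Nat.sqrt (2 * n) := by
        rw [card_Icc, Nat.add_sub_cancel]
      rw [Finset.prod_const]
      refine pow_right_mono₀ n2_pos ((Finset.card_le_card fun x hx => ?_).trans this.le)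
      obtain ⟨h1, h2⟩ := Finset.mem_filter.1 hx
      exact Finset.mem_Icc.mpr ⟨(Finset.mem_filter.1 h1).2.one_lt.le, h2⟩
    · refine le_trans ?_ (primorial_le_four_pow (2 * n / 3))
      refine (Finset.prod_le_prod' fun p hp => (?_ : f p ≤ p)).trans ?_
      · obtain ⟨h1, h2⟩ := Finset.mem_filter.1 hp
        refine (pow_right_mono₀ (Finset.mem_filter.1 h1).2.one_lt.le ?_).trans (pow_one p).le
        exact Nat.factorization_choose_le_one (Nat.sqrt_lt'.mp <| not_le.1 h2)
      refine Finset.prod_le_prod_of_subset_of_one_le' (Finset.filter_subset _ _) ?_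
      exact fun p hp _ => (Finset.mem_filter.1 hp).2.one_lt.le
  · have hsub : (Finset.Ioc n (2 * n)).filter Nat.Prime ⊆
        Finset.Ico (2 * n / 3 + 1) (2 * n + 1) := by
      intro p hp
      rw [Finset.mem_filter, Finset.mem_Ioc] at hp
      rw [Finset.mem_Ico]
      omega
    rw [← Finset.prod_subset hsub]
    · refine (Finset.prod_le_prod' fun p _ => (?_ : f p ≤ 2 * n)).trans ?_
      · exact pow_factorization_choose_le (mul_pos two_pos n_pos)
      · rw [Finset.prod_const]
        exact le_refl _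
    · intro p hp hp2
      rw [Finset.mem_Ico] at hp
      by_cases hpp : p.Prime
      · have hpn : p ≤ n := by
          by_contra hlt
          exact hp2 (by rw [Finset.mem_filter, Finset.mem_Ioc]; exact ⟨by omega, hpp⟩)
        show p ^ n.centralBinom.factorization p = 1
        rw [factorization_centralBinom_of_two_mul_self_lt_three_mul n_large hpn (by omega),
          Nat.pow_zero]
      · show p ^ n.centralBinom.factorization p = 1
        rw [factorization_eq_zero_of_not_prime n.centralBinom hpp, Nat.pow_zero]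

theorem npr_lower (n : ℕ) (hn : 2 < n) :
    (n : ℝ) * Real.log 4 / 3 ≤ ((npr n : ℝ) + 1 + Real.sqrt (2 * n)) * Real.log (2 * n) := by
  have h1 := Nat.four_pow_le_two_mul_self_mul_centralBinom n (by omega)
  have h2 := centralBinom_le n hn
  have h3 : 4 ^ n ≤ (2 * n) * ((2 * n) ^ Nat.sqrt (2 * n) * 4 ^ (2 * n / 3) * (2 * n) ^ npr n) :=
    h1.trans (Nat.mul_le_mul_left _ h2)
  have h4 : (4 : ℝ) ^ n ≤ (2 * n : ℝ) * ((2 * n : ℝ) ^ Nat.sqrt (2 * n) * 4 ^ (2 * n / 3) *
      (2 * n : ℝ) ^ npr n) := by exact_mod_cast h3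
  obtain ⟨x, hx⟩ : ∃ x : ℝ, x = 2 * n := ⟨_, rfl⟩
  have hn1 : (1 : ℝ) ≤ n := by exact_mod_cast (by omega : 1 ≤ n)
  have hn0 : (0 : ℝ) < x := by linarith
  have h7 : ((Nat.sqrt (2 * n) : ℕ) : ℝ) ≤ Real.sqrt x := by
    have := @Real.nat_sqrt_le_real_sqrt (2 * n)
    rw [hx]
    push_cast at this
    exact this
  have h6 : ((2 * n / 3 : ℕ) : ℝ) ≤ x / 3 := by
    have := @Nat.cast_div_le ℝ _ _ _ (2 * n) 3
    rw [hx]
    push_cast at this
    exact this
  rw [← hx] at h4 ⊢
  have h5 := Real.log_le_log (by positivity) h4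
  rw [Real.log_mul hn0.ne' (by positivity), Real.log_mul (by positivity) (by positivity),
    Real.log_mul (by positivity) (by positivity), Real.log_pow, Real.log_pow, Real.log_pow,
    Real.log_pow] at h5
  have hlog4 : 0 ≤ Real.log 4 := Real.log_nonneg (by norm_num)
  have hlog2n : 0 ≤ Real.log x := by
    apply Real.log_nonneg
    linarith
  have h8 : ((2 * n / 3 : ℕ) : ℝ) * Real.log 4 ≤ x / 3 * Real.log 4 :=
    mul_le_mul_of_nonneg_right h6 hlog4
  have h9 : ((Nat.sqrt (2 * n) : ℕ) : ℝ) * Real.log x ≤ Real.sqrt x * Real.log x :=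
    mul_le_mul_of_nonneg_right h7 hlog2n
  have h10 : x / 3 * Real.log 4 = 2 * (n * Real.log 4 / 3) := by rw [hx]; ring
  have h11 : (n : ℝ) * Real.log 4 = 3 * (n * Real.log 4 / 3) := by ring
  linarith

/-- The primes `ℓ` with `(K+H)/2 < ℓ ≤ K`. -/
def QS (K H : ℕ) : Finset ℕ := (Finset.Icc 1 K).filter fun p => p.Prime ∧ K + H < 2 * p

theorem many_primes (K H : ℕ) (hK : 12960000 ≤ K) (hH : H * H ≤ K) :
    (K : ℝ) / (10 * Real.log K) ≤ ((QS K H).card : ℝ) := by
  set n := K / 2 with hn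
  have h2n : 2 * n ≤ K := by omega
  have hKn : K ≤ 2 * n + 1 := by omega
  have h1 : npr n ≤ (QS K H).card + (H / 2 + 1) := by
    have hsub : (Finset.Ioc n (2 * n)).filter Nat.Prime ⊆
        QS K H ∪ Finset.Ioc n (n + (H / 2 + 1)) := by
      intro p hp
      rw [Finset.mem_filter, Finset.mem_Ioc] at hp
      rw [Finset.mem_union, Finset.mem_Ioc]
      by_cases h : K + H < 2 * p
      · left
        unfold QS
        rw [Finset.mem_filter, Finset.mem_Icc]
        exact ⟨by omega, hp.2, h⟩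
      · right
        omega
    have := (Finset.card_le_card hsub).trans (Finset.card_union_le _ _)
    rw [Nat.card_Ioc] at this
    unfold npr
    omega
  have h2 := npr_lower n (by omega)
  have hKr : (12960000 : ℝ) ≤ K := by exact_mod_cast hK
  have hK0 : (0 : ℝ) < K := by linarith
  set y : ℝ := Real.sqrt (Real.sqrt K) with hy
  have hy2 : y ^ 2 = Real.sqrt K := Real.sq_sqrt (Real.sqrt_nonneg _)
  have hy4 : y ^ 4 = K := by
    rw [show y ^ 4 = (y ^ 2) ^ 2 by ring, hy2, Real.sq_sqrt hK0.le]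
  have hy0 : 0 ≤ y := Real.sqrt_nonneg _
  have hy60 : 60 ≤ y := by
    by_contra hlt
    push Not at hlt
    have h3 : y ^ 4 < 60 ^ 4 := pow_lt_pow_left₀ hlt hy0 (by norm_num)
    rw [hy4] at h3
    norm_num at h3
    linarith
  have hlog : Real.log K ≤ 4 * y := by
    rw [← hy4, Real.log_pow]
    have := Real.log_le_sub_one_of_pos (show (0 : ℝ) < y by linarith)
    push_cast
    linarith
  have hlogpos : 0 < Real.log K := Real.log_pos (by linarith)
  have hlog2n : Real.log (2 * n) ≤ Real.log K := by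
    apply Real.log_le_log
    · have : (0 : ℝ) < n := by exact_mod_cast (by omega : 0 < n)
      linarith
    · exact_mod_cast h2n
  have hsqrt2n : Real.sqrt (2 * n) ≤ y ^ 2 := by
    rw [hy2]
    apply Real.sqrt_le_sqrt
    exact_mod_cast h2n
  have hHy : (H : ℝ) ≤ y ^ 2 := by
    rw [hy2]
    apply Real.le_sqrt_of_sq_le
    rw [pow_two]
    exact_mod_cast hH
  have hlog4 : (1.38 : ℝ) ≤ Real.log 4 := by
    rw [show (4 : ℝ) = 2 ^ 2 by norm_num, Real.log_pow]
    have := Real.log_two_gt_d9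
    push_cast
    linarith
  have hnK : (K : ℝ) - 1 ≤ 2 * n := by
    have : (K : ℝ) ≤ 2 * n + 1 := by exact_mod_cast hKn
    linarith
  have h3 : (n : ℝ) * Real.log 4 / 3 ≤ ((npr n : ℝ) + 1 + y ^ 2) * Real.log K := by
    refine h2.trans ?_
    have h4 : 0 ≤ Real.log (2 * n) := by
      apply Real.log_nonneg
      have : (1 : ℝ) ≤ n := by exact_mod_cast (by omega : 1 ≤ n)
      linarith
    apply mul_le_mul (by linarith) hlog2n h4
    positivity
  have h5 : 0.23 * ((K : ℝ) - 1) ≤ (n : ℝ) * Real.log 4 / 3 := by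
    have h6 : (0 : ℝ) ≤ n := Nat.cast_nonneg n
    nlinarith
  have h1r : (npr n : ℝ) ≤ (QS K H).card + (H / 2 + 1) := by
    have h7 : ((npr n : ℕ) : ℝ) ≤ (((QS K H).card + (H / 2 + 1) : ℕ) : ℝ) := by exact_mod_cast h1
    push_cast at h7
    have h8 : ((H / 2 : ℕ) : ℝ) ≤ (H : ℝ) / 2 := Nat.cast_div_le
    linarith
  have h9 : 0.23 * ((K : ℝ) - 1) ≤ (((QS K H).card : ℝ) + 2 + 1.5 * y ^ 2) * Real.log K := by
    refine (h5.trans h3).trans ?_
    apply mul_le_mul_of_nonneg_right _ hlogpos.le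
    linarith
  have h10 : (2 + 1.5 * y ^ 2) * Real.log K ≤ (2 + 1.5 * y ^ 2) * (4 * y) :=
    mul_le_mul_of_nonneg_left hlog (by positivity)
  have h11 : (2 + 1.5 * y ^ 2) * (4 * y) ≤ 0.13 * K - 0.23 := by
    rw [← hy4]
    nlinarith [pow_nonneg hy0 3, pow_nonneg hy0 2, mul_nonneg hy0 hy0,
      mul_nonneg (pow_nonneg hy0 3) (sub_nonneg.mpr hy60),
      mul_nonneg (pow_nonneg hy0 2) (sub_nonneg.mpr hy60),
      mul_nonneg hy0 (sub_nonneg.mpr hy60)]
  rw [div_le_iff₀ (by positivity)]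
  nlinarith

end Pool.Agent.H557
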