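import Pool.Agent.H557.TwoSided

/-!
Nondegeneracy and splitting of the two-sided parity sequence at a prime `ℓ` in `(k/2, k]`.
-/

namespace Pool.Agent.H557

open Polynomial Finset

/-- `1 + X + ⋯ + X^(ℓ-1)` -/
noncomputable def Phi (ℓ : ℕ) : (ZMod 2)[X] := ∑ i ∈ Finset.range ℓ, X ^ i

theorem Phi_mul (ℓ : ℕ) : Phi ℓ * (1 - X) = 1 - X ^ ℓ := by
  unfold Phi
  exact geom_sum_mul_neg X ℓ

theorem one_sub_X_ne_zero : (1 - X : (ZMod 2)[X]) ≠ 0 := by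
  have := one_sub_X_pow_ne_zero (n := 1) one_pos
  rwa [pow_one] at this

theorem natDegree_Phi {ℓ : ℕ} (hℓ : 0 < ℓ) : (Phi ℓ).natDegree + 1 = ℓ := by
  have h0 : Phi ℓ ≠ 0 := by
    intro h
    have := Phi_mul ℓ
    rw [h, zero_mul] at this
    exact one_sub_X_pow_ne_zero hℓ this.symm
  have h1 := congrArg natDegree (Phi_mul ℓ)
  rw [natDegree_mul h0 one_sub_X_ne_zero, natDegree_one_sub_X_pow] at h1
  have h2 := natDegree_one_sub_X_pow 1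
  rw [pow_one] at h2
  rw [h2] at h1
  exact h1

theorem Phi_coprime {ℓ Q : ℕ} (hℓ : 1 < ℓ) (hodd : Odd ℓ) (hc : Nat.Coprime ℓ Q) :
    IsCoprime (Phi ℓ) (1 - X ^ Q) := by
  obtain ⟨u, -, hu⟩ := Nat.exists_mul_mod_eq_one_of_coprime hc.symm hℓ
  set v := Q * u / ℓ with hv
  have huv : Q * u = 1 + ℓ * v := by
    have := Nat.mod_add_div (Q * u) ℓ
    rw [hu] at this
    exact this.symm
  have h1 : (X - C 1 : (ZMod 2)[X]) ∣ Phi ℓ - C ((Phi ℓ).eval 1) := X_sub_C_dvd_sub_C_eval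
  have h2 : (Phi ℓ).eval 1 = 1 := by
    unfold Phi
    rw [eval_finsetSum]
    simp only [eval_pow, eval_X, one_pow, Finset.sum_const, Finset.card_range, nsmul_eq_mul,
      mul_one]
    obtain ⟨m, rfl⟩ := hodd
    push_cast
    have : (2 : ZMod 2) = 0 := by decide
    rw [this]
    ring
  rw [h2, map_one] at h1
  obtain ⟨R, hR⟩ := h1
  obtain ⟨s, hs⟩ : (1 - X ^ Q : (ZMod 2)[X]) ∣ 1 - X ^ (Q * u) := by
    rw [pow_mul]
    exact one_sub_dvd_one_sub_pow _ _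
  obtain ⟨r, hr⟩ : (1 - X ^ ℓ : (ZMod 2)[X]) ∣ 1 - X ^ (ℓ * v) := by
    rw [pow_mul]
    exact one_sub_dvd_one_sub_pow _ _
  have h3 : (1 - X : (ZMod 2)[X]) = (1 - X ^ (Q * u)) - X * (1 - X ^ (ℓ * v)) := by
    rw [huv, pow_add, pow_one]
    ring
  rw [hs, hr, ← Phi_mul ℓ] at h3
  refine ⟨1 - R * X * (1 - X) * r, R * s, ?_⟩
  linear_combination hR - R * h3

/-- Nondegeneracy. -/
theorem nondeg {k ℓ Q : ℕ} {A : (ZMod 2)[X]} (hℓk : ℓ ≤ k) (hℓ : 1 < ℓ)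
    (hodd : Odd ℓ) (hc : Nat.Coprime ℓ Q) (hA : A ≠ 0) (hdeg : A.natDegree + 1 < ℓ)
    (hper : ∀ n, act A (cc k) (n + Q) = act A (cc k) n) : False := by
  have hk : 1 ≤ k := by omega
  have h1 : act ((1 - X ^ Q) * A) (cc k) = 0 := by
    rw [act_mul]
    funext n
    rw [act_one_sub_X_pow]
    have := hper (n - (Q : ℤ))
    rw [sub_add_cancel] at this
    have h2 : ((Q : ℕ) : ℤ) = (Q : ℤ) := rfl
    rw [this, sub_self]
    rfl
  have h2 := DD_dvd_of_act_eq_zero hk h1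
  have h3 : Phi ℓ ∣ (1 - X ^ Q) * A := by
    have h4 : Phi ℓ ∣ 1 - X ^ ℓ := ⟨1 - X, (Phi_mul ℓ).symm⟩
    have h5 : (1 - X ^ ℓ : (ZMod 2)[X]) ∣ DD k := by
      unfold DD
      exact Finset.dvd_prod_of_mem (fun i => (1 - X ^ i : (ZMod 2)[X]))
        (Finset.mem_Icc.mpr ⟨by omega, hℓk⟩)
    exact (h4.trans h5).trans h2
  have h6 : Phi ℓ ∣ A := (Phi_coprime hℓ hodd hc).dvd_of_dvd_mul_left h3
  have h7 := natDegree_le_of_dvd h6 hA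
  have h8 := natDegree_Phi (ℓ := ℓ) (by omega)
  omega

/-- Splitting property. -/
def Split (ψ : ℤ → ZMod 2) (ℓ Q : ℕ) : Prop :=
  ∀ n : ℤ, ψ (n + ℓ + Q) - ψ (n + ℓ) = ψ (n + Q) - ψ n

/-- The part of the period prime to `ℓ`. -/
def LE (k ℓ : ℕ) : ℕ := ((Finset.Icc 1 k).erase ℓ).lcm id

theorem coprime_LE {k ℓ : ℕ} (hp : ℓ.Prime) (h2 : k < 2 * ℓ) : Nat.Coprime ℓ (LE k ℓ) := by
  have hprod : LE k ℓ ∣ ∏ i ∈ (Finset.Icc 1 k).erase ℓ, i := by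
    unfold LE
    apply Finset.lcm_dvd
    intro i hi
    exact Finset.dvd_prod_of_mem _ hi
  refine Nat.Coprime.coprime_dvd_right hprod ?_
  refine Nat.Coprime.prod_right fun i hi => ?_
  rw [Finset.mem_erase, Finset.mem_Icc] at hi
  rw [Nat.Prime.coprime_iff_not_dvd hp]
  rintro ⟨m, hm⟩
  rcases m with _ | _ | m
  · omega
  · omega
  · nlinarith

theorem LL_eq {k ℓ : ℕ} (hp : ℓ.Prime) (h1 : ℓ ≤ k) (h2 : k < 2 * ℓ) : LL k = ℓ * LE k ℓ := by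
  have hmem : ℓ ∈ Finset.Icc 1 k := Finset.mem_Icc.mpr ⟨hp.one_le, h1⟩
  unfold LL
  rw [← Finset.insert_erase hmem, Finset.lcm_insert]
  exact Nat.Coprime.lcm_eq_mul (coprime_LE hp h2)

theorem PP_eq {k ℓ : ℕ} (hp : ℓ.Prime) (h1 : ℓ ≤ k) (h2 : k < 2 * ℓ) :
    PP k = ℓ * (2 ^ k * LE k ℓ) := by
  unfold PP
  rw [LL_eq hp h1 h2]
  ring

theorem split_of_dvd {k ℓ Q : ℕ} (hp : ℓ.Prime) (hℓk : ℓ ≤ k) (h2k : k < 2 * ℓ)
    (hQ : PP k ∣ ℓ * Q) (A : (ZMod 2)[X]) : Split (act A (cc k)) ℓ Q := by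
  have hk : 1 ≤ k := hp.one_le.trans hℓk
  have hmem : ℓ ∈ Finset.Icc 1 k := Finset.mem_Icc.mpr ⟨hp.one_le, hℓk⟩
  have h2 : 2 ^ k * LE k ℓ ∣ Q := by
    rw [PP_eq hp hℓk h2k] at hQ
    exact Nat.dvd_of_mul_dvd_mul_left hp.pos hQ
  have hcard : ((Finset.Icc 1 k).erase ℓ).card ≤ 2 ^ k := by
    have h4 := Finset.card_le_card (Finset.erase_subset ℓ (Finset.Icc 1 k))
    rw [Nat.card_Icc] at h4
    have := (Nat.lt_two_pow_self (n := k)).le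
    omega
  have hall : ∀ i ∈ (Finset.Icc 1 k).erase ℓ, i ∣ LE k ℓ :=
    fun i hi => Finset.dvd_lcm (f := id) hi
  have hA : ∏ i ∈ (Finset.Icc 1 k).erase ℓ, (1 - X ^ i : (ZMod 2)[X]) ∣
      1 - X ^ (2 ^ k * LE k ℓ) := prod_dvd _ _ _ hall hcard
  have hB : (1 - X ^ (2 ^ k * LE k ℓ) : (ZMod 2)[X]) ∣ 1 - X ^ Q := by
    obtain ⟨c, hc⟩ := h2
    rw [hc, pow_mul X (2 ^ k * LE k ℓ) c]
    exact one_sub_dvd_one_sub_pow _ _
  have h3 : DD k ∣ (1 - X ^ ℓ) * (1 - X ^ Q) := by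
    have h5 : DD k = (1 - X ^ ℓ) * ∏ i ∈ (Finset.Icc 1 k).erase ℓ, (1 - X ^ i) :=
      (Finset.mul_prod_erase (Finset.Icc 1 k) (fun i => (1 - X ^ i : (ZMod 2)[X])) hmem).symm
    rw [h5]
    exact mul_dvd_mul_left _ (hA.trans hB)
  obtain ⟨c, hc⟩ := h3
  have h4 : act ((1 - X ^ ℓ) * (1 - X ^ Q)) (act A (cc k)) = 0 := by
    rw [← act_mul, hc, show DD k * c * A = (c * A) * DD k by ring, act_mul, act_DD_cc hk, act_zero]
  intro n
  have h5 := congrFun h4 (n + ℓ + Q)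
  rw [act_mul, act_one_sub_X_pow, act_one_sub_X_pow, act_one_sub_X_pow] at h5
  rw [show n + (ℓ : ℤ) + Q - (Q : ℤ) = n + ℓ by ring,
    show n + (ℓ : ℤ) + Q - (ℓ : ℤ) = n + Q by ring,
    show n + (Q : ℤ) - (Q : ℤ) = n by ring] at h5
  have h6 : (0 : ℤ → ZMod 2) (n + ℓ + Q) = 0 := rfl
  rw [h6] at h5
  exact sub_eq_zero.mp h5

/-- Decomposition of a split function into an `ℓ`-periodic and a `Q`-periodic part. -/
theorem decomp {ψ : ℤ → ZMod 2} {ℓ Q : ℕ} (hs : Split ψ ℓ Q) (hc : Nat.Coprime ℓ Q)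
    (hper : ∀ n : ℤ, ψ (n + (ℓ * Q : ℕ)) = ψ n) :
    ∃ (β : ZMod ℓ → ZMod 2) (r : ℤ → ZMod 2), (∀ n, r (n + Q) = r n) ∧
      ∀ n : ℤ, ψ n = β (n : ZMod ℓ) + r n := by
  obtain ⟨e, he1, he2⟩ := Nat.chineseRemainder hc 1 0
  have hper2 : ∀ a b : ℤ, ((ℓ * Q : ℕ) : ℤ) ∣ a - b → ψ a = ψ b := by
    rintro a b ⟨m, hm⟩
    rw [show a = b + ((ℓ * Q : ℕ) : ℤ) * m by linarith]
    exact periodic_mul_int hper b m
  have hwper : ∀ n : ℤ, (fun n => ψ (n + Q) - ψ n) (n + ℓ) = (fun n => ψ (n + Q) - ψ n) n :=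
    fun n => hs n
  have hw : ∀ a b : ℤ, (ℓ : ℤ) ∣ a - b → ψ (a + Q) - ψ a = ψ (b + Q) - ψ b := by
    rintro a b ⟨m, hm⟩
    rw [show a = b + (ℓ : ℤ) * m by linarith]
    exact periodic_mul_int (f := fun n => ψ (n + Q) - ψ n) hwper b m
  have he1' : (ℓ : ℤ) ∣ (e : ℤ) - 1 := by
    have := (Nat.modEq_iff_dvd.mp he1.symm)
    simpa using this
  have he2' : (Q : ℤ) ∣ (e : ℤ) := by
    have := (Nat.modEq_iff_dvd.mp he2.symm)
    simpa using this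
  have hdvd : ∀ a : ℤ, (ℓ : ℤ) ∣ a → ((ℓ * Q : ℕ) : ℤ) ∣ e * a := by
    intro a ha
    push_cast
    rw [mul_comm (ℓ : ℤ) Q]
    exact mul_dvd_mul he2' ha
  refine ⟨fun x => ψ (e * (x.cast : ℤ)), fun n => ψ n - ψ (e * n), ?_, ?_⟩
  · intro n
    have h1 : ψ (e * (n + Q)) = ψ (e * n + Q) := by
      apply hper2
      have : (e : ℤ) * (n + Q) - (e * n + Q) = Q * (e - 1) := by ring
      rw [this]
      push_cast
      rw [mul_comm (ℓ : ℤ) Q]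
      exact mul_dvd_mul_left _ he1'
    have h2 : ψ (n + Q) - ψ n = ψ (e * n + Q) - ψ (e * n) := by
      apply hw
      have : n - (e : ℤ) * n = (e - 1) * (-n) := by ring
      rw [this]
      exact Dvd.dvd.mul_right he1' _
    show ψ (n + Q) - ψ (e * (n + Q)) = ψ n - ψ (e * n)
    rw [h1]
    linear_combination h2
  · intro n
    have h1 : ψ (e * (((n : ZMod ℓ).cast : ℤ))) = ψ (e * n) := by
      apply hper2
      rw [← mul_sub]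
      apply hdvd
      have : ((((n : ZMod ℓ).cast : ℤ) - n : ℤ) : ZMod ℓ) = 0 := by
        push_cast
        simp
      exact (ZMod.intCast_zmod_eq_zero_iff_dvd _ _).mp this
    show ψ n = ψ (e * (((n : ZMod ℓ).cast : ℤ))) + (ψ n - ψ (e * n))
    rw [h1]
    ring

end Pool.Agent.H557
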