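import Mathlib

/-!
Polynomials over `ZMod 2` acting on functions `R → ZMod 2` (`R` a commutative ring) by the
backward shift `(S f) x = f (x - 1)`.
-/

namespace Pool.Agent.H557

open Polynomial Finset

section act

variable {R : Type*} [CommRing R]

/-- The backward shift as a linear map. -/
def sh (R : Type*) [CommRing R] : (R → ZMod 2) →ₗ[ZMod 2] (R → ZMod 2) where
  toFun f := fun x => f (x - 1)
  map_add' _ _ := rfl
  map_smul' _ _ := rfl

/-- The action of a polynomial through the shift. -/
noncomputable def act (A : (ZMod 2)[X]) (f : R → ZMod 2) : R → ZMod 2 :=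
  (aeval (sh R) A) f

theorem sh_pow_apply (m : ℕ) (f : R → ZMod 2) (x : R) :
    ((sh R) ^ m) f x = f (x - m) := by
  induction m generalizing x with
  | zero => simp
  | succ m ih =>
    rw [pow_succ', Module.End.mul_apply]
    show ((sh R) ^ m) f (x - 1) = _
    rw [ih]
    congr 1
    push_cast
    ring

theorem act_apply (A : (ZMod 2)[X]) (f : R → ZMod 2) (x : R) :
    act A f x = ∑ i ∈ range (A.natDegree + 1), A.coeff i * f (x - i) := by
  unfold act
  rw [aeval_eq_sum_range]
  simp [LinearMap.sum_apply, Finset.sum_apply, sh_pow_apply]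

theorem act_apply_support (A : (ZMod 2)[X]) (f : R → ZMod 2) (x : R) :
    act A f x = ∑ i ∈ A.support, A.coeff i * f (x - i) := by
  unfold act
  rw [aeval_def, eval₂_eq_sum, Polynomial.sum_def]
  simp [LinearMap.sum_apply, Finset.sum_apply, sh_pow_apply]

theorem act_mul (A B : (ZMod 2)[X]) (f : R → ZMod 2) :
    act (A * B) f = act A (act B f) := by
  unfold act
  rw [map_mul, Module.End.mul_apply]

theorem act_add_left (A B : (ZMod 2)[X]) (f : R → ZMod 2) :
    act (A + B) f = act A f + act B f := by
  unfold act
  rw [map_add, LinearMap.add_apply]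

theorem act_sub_left (A B : (ZMod 2)[X]) (f : R → ZMod 2) :
    act (A - B) f = act A f - act B f := by
  unfold act
  rw [map_sub, LinearMap.sub_apply]

theorem act_add (A : (ZMod 2)[X]) (f g : R → ZMod 2) :
    act A (f + g) = act A f + act A g := by
  unfold act
  rw [map_add]

theorem act_sub (A : (ZMod 2)[X]) (f g : R → ZMod 2) :
    act A (f - g) = act A f - act A g := by
  unfold act
  rw [map_sub]

theorem act_zero (A : (ZMod 2)[X]) : act A (0 : R → ZMod 2) = 0 := by
  unfold act
  rw [map_zero]

theorem act_one (f : R → ZMod 2) : act 1 f = f := by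
  unfold act
  rw [map_one, Module.End.one_apply]

theorem act_X_pow (m : ℕ) (f : R → ZMod 2) (x : R) : act (X ^ m) f x = f (x - m) := by
  unfold act
  rw [map_pow, aeval_X, sh_pow_apply]

theorem act_one_sub_X_pow (m : ℕ) (f : R → ZMod 2) (x : R) :
    act (1 - X ^ m) f x = f x - f (x - m) := by
  rw [act_sub_left, act_one, Pi.sub_apply, act_X_pow]

/-- Constants: acting on a constant function gives a constant function. -/
theorem act_const (A : (ZMod 2)[X]) (c : ZMod 2) (x : R) :
    act A (fun _ : R => c) x = A.eval 1 * c := by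
  rw [act_apply, eval_eq_sum_range, Finset.sum_mul]
  simp

/-- The support of `act A f` is covered by shifts of the support of `f`. -/
theorem act_ne_zero {A : (ZMod 2)[X]} {f : R → ZMod 2} {x : R} (h : act A f x ≠ 0) :
    ∃ i ∈ A.support, f (x - i) ≠ 0 := by
  rw [act_apply_support] at h
  obtain ⟨i, hi, hne⟩ := Finset.exists_ne_zero_of_sum_ne_zero h
  exact ⟨i, hi, right_ne_zero_of_mul hne⟩

/-- Periodicity (with respect to any translation) is preserved. -/
theorem act_periodic {A : (ZMod 2)[X]} {f : R → ZMod 2} {c : R} (h : ∀ x, f (x + c) = f x)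
    (x : R) : act A f (x + c) = act A f x := by
  rw [act_apply, act_apply]
  refine Finset.sum_congr rfl fun i _ => ?_
  rw [show x + c - i = (x - i) + c by ring, h]

/-- Compatibility with ring homomorphisms. -/
theorem act_comp {R' : Type*} [CommRing R'] (φ : R →+* R') (A : (ZMod 2)[X])
    (f : R' → ZMod 2) (x : R) : act A (fun y => f (φ y)) x = act A f (φ x) := by
  rw [act_apply, act_apply]
  refine Finset.sum_congr rfl fun i _ => ?_
  rw [map_sub, map_natCast]

end act

/-- The support of a function on a finite type, as a finset. -/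
def spt {α : Type*} [Fintype α] (f : α → ZMod 2) : Finset α := univ.filter fun x => f x ≠ 0

theorem mem_spt {α : Type*} [Fintype α] {f : α → ZMod 2} {x : α} : x ∈ spt f ↔ f x ≠ 0 := by
  simp [spt]

/-- Size of the support of `act A f` on `ZMod ℓ`. -/
theorem card_spt_act_le {ℓ : ℕ} [NeZero ℓ] (A : (ZMod 2)[X]) (f : ZMod ℓ → ZMod 2) :
    (spt (act A f)).card ≤ A.support.card * (spt f).card := by
  classical
  have hsub : spt (act A f) ⊆ (A.support ×ˢ spt f).image (fun p => p.2 + (p.1 : ZMod ℓ)) := by
    intro x hx
    rw [mem_spt] at hx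
    obtain ⟨i, hi, hne⟩ := act_ne_zero hx
    rw [Finset.mem_image]
    exact ⟨(i, x - i), by simp [hi, mem_spt, hne, Finset.mem_product]
      , by simp⟩
  calc (spt (act A f)).card ≤ _ := Finset.card_le_card hsub
    _ ≤ (A.support ×ˢ spt f).card := Finset.card_image_le
    _ = _ := Finset.card_product _ _

/-- In `ZMod 2` a nonzero element is one. -/
theorem eq_one_of_ne {a : ZMod 2} (h : a ≠ 0) : a = 1 := by
  revert h; revert a; decide

end Pool.Agent.H557
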