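import Pool.Agent.H557.PartGF

/-!
The parities of `rp k` extended periodically to all integers, and their annihilator.
-/

namespace Pool.Agent.H557

open Polynomial Finset

/-- `DD k = ∏_{i ≤ k} (1 - X^i)`. -/
noncomputable def DD (k : ℕ) : (ZMod 2)[X] := ∏ i ∈ Finset.Icc 1 k, (1 - X ^ i)

/-- The least common multiple of `1, …, k`. -/
def LL (k : ℕ) : ℕ := (Finset.Icc 1 k).lcm id

theorem LL_pos (k : ℕ) : 0 < LL k := by
  unfold LL
  apply Nat.pos_of_ne_zero
  intro h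
  rw [Finset.lcm_eq_zero_iff] at h
  obtain ⟨i, hi, h0⟩ := h
  have := (Finset.mem_Icc.mp hi).1
  simp only [id] at h0
  omega

/-- a period -/
def PP (k : ℕ) : ℕ := 2 ^ k * LL k

theorem PP_pos (k : ℕ) : 0 < PP k := Nat.mul_pos (by positivity) (LL_pos k)

theorem one_sub_sq (Y : (ZMod 2)[X]) : (1 - Y) ^ 2 = 1 - Y ^ 2 := by
  have h2 : (2 : (ZMod 2)[X]) = 0 := by
    have : ((2 : ℕ) : (ZMod 2)[X]) = 0 := CharP.cast_eq_zero _ 2
    exact_mod_cast this
  linear_combination (Y ^ 2 - Y) * h2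

theorem one_sub_pow_two_pow (Y : (ZMod 2)[X]) (m : ℕ) : (1 - Y) ^ (2 ^ m) = 1 - Y ^ (2 ^ m) := by
  induction m with
  | zero => simp
  | succ m ih => rw [pow_succ, pow_mul, ih, one_sub_sq, ← pow_mul]

theorem prod_dvd (s : Finset ℕ) (L m : ℕ) (hL : ∀ i ∈ s, i ∣ L) (hm : s.card ≤ 2 ^ m) :
    ∏ i ∈ s, (1 - X ^ i : (ZMod 2)[X]) ∣ 1 - X ^ (2 ^ m * L) := by
  have h1 : ∏ i ∈ s, (1 - X ^ i : (ZMod 2)[X]) ∣ ∏ _i ∈ s, (1 - X ^ L) := by
    apply Finset.prod_dvd_prod_of_dvd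
    intro i hi
    obtain ⟨c, hc⟩ := hL i hi
    rw [hc, pow_mul]
    exact one_sub_dvd_one_sub_pow _ _
  rw [Finset.prod_const] at h1
  refine h1.trans ((pow_dvd_pow _ hm).trans ?_)
  rw [one_sub_pow_two_pow, ← pow_mul, mul_comm L]

theorem DD_dvd (k : ℕ) : DD k ∣ 1 - X ^ (PP k) := by
  unfold DD PP LL
  refine prod_dvd _ _ _ (fun i hi => Finset.dvd_lcm (f := id) hi) ?_
  rw [Nat.card_Icc]
  have := (Nat.lt_two_pow_self (n := k)).le
  omega

theorem natDegree_one_sub_X_pow (n : ℕ) :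
    (1 - X ^ n : (ZMod 2)[X]).natDegree = n := by
  have : (1 - X ^ n : (ZMod 2)[X]) = -(X ^ n - C 1) := by simp
  rw [this, natDegree_neg, natDegree_X_pow_sub_C]

theorem one_sub_X_pow_ne_zero {n : ℕ} (hn : 0 < n) : (1 - X ^ n : (ZMod 2)[X]) ≠ 0 := by
  intro h
  have h1 := natDegree_one_sub_X_pow n
  rw [h] at h1
  simp at h1
  omega

theorem DD_ne_zero (k : ℕ) : DD k ≠ 0 := by
  unfold DD
  rw [Finset.prod_ne_zero_iff]
  intro i hi
  exact one_sub_X_pow_ne_zero (Finset.mem_Icc.mp hi).1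

/-- The generating series of `rp k` mod 2. -/
noncomputable def GG (k : ℕ) : PowerSeries (ZMod 2) :=
  PowerSeries.mk fun n => ((rp k n : ℕ) : ZMod 2)

theorem coe_DD (k : ℕ) : ((DD k : (ZMod 2)[X]) : PowerSeries (ZMod 2)) =
    ∏ i ∈ Finset.Icc 1 k, (1 - PowerSeries.X ^ i) := by
  unfold DD
  have h := map_prod (Polynomial.coeToPowerSeries.ringHom (R := ZMod 2))
    (fun i => (1 - X ^ i : (ZMod 2)[X])) (Finset.Icc 1 k)
  rw [Polynomial.coeToPowerSeries.ringHom_apply] at h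
  rw [h]
  refine Finset.prod_congr rfl fun i _ => ?_
  rw [Polynomial.coeToPowerSeries.ringHom_apply]
  simp only [Polynomial.coe_sub, Polynomial.coe_one, Polynomial.coe_pow, Polynomial.coe_X]

theorem GG_mul (k : ℕ) : GG k * ((DD k : (ZMod 2)[X]) : PowerSeries (ZMod 2)) = 1 := by
  rw [coe_DD]
  exact rp_gf k

/-- If `B * GG k` has vanishing coefficients from some point on then `DD k ∣ B`. -/
theorem DD_dvd_of_eventually {k : ℕ} {B : (ZMod 2)[X]} {N : ℕ}
    (h : ∀ n, N ≤ n → PowerSeries.coeff n ((B : PowerSeries (ZMod 2)) * GG k) = 0) :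
    DD k ∣ B := by
  set Q : (ZMod 2)[X] := PowerSeries.trunc N ((B : PowerSeries (ZMod 2)) * GG k) with hQ
  have h1 : (Q : PowerSeries (ZMod 2)) = (B : PowerSeries (ZMod 2)) * GG k := by
    ext n
    rw [Polynomial.coeff_coe, hQ, PowerSeries.coeff_trunc]
    split_ifs with hn
    · rfl
    · rw [h n (not_lt.mp hn)]
  refine ⟨Q, ?_⟩
  apply Polynomial.coe_injective (ZMod 2)
  rw [Polynomial.coe_mul, h1, mul_comm, mul_assoc, GG_mul, mul_one]

theorem rp_add_PP (k : ℕ) (hk : 1 ≤ k) (n : ℕ) :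
    ((rp k (n + PP k) : ℕ) : ZMod 2) = ((rp k n : ℕ) : ZMod 2) := by
  obtain ⟨Q, hQ⟩ := DD_dvd k
  have hP := PP_pos k
  have hQ0 : Q ≠ 0 := by
    rintro rfl
    rw [mul_zero] at hQ
    exact one_sub_X_pow_ne_zero hP hQ
  have hdeg : (DD k).natDegree + Q.natDegree = PP k := by
    rw [← natDegree_mul (DD_ne_zero k) hQ0, ← hQ, natDegree_one_sub_X_pow]
  have hd1 : 1 ≤ (DD k).natDegree := by
    have h1 : (1 - X ^ 1 : (ZMod 2)[X]) ∣ DD k := by
      unfold DD
      exact Finset.dvd_prod_of_mem (fun i => (1 - X ^ i : (ZMod 2)[X]))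
        (Finset.mem_Icc.mpr ⟨le_refl 1, hk⟩)
    have h2 := natDegree_le_of_dvd h1 (DD_ne_zero k)
    rwa [natDegree_one_sub_X_pow] at h2
  have h3 : GG k * (1 - PowerSeries.X ^ (PP k)) = (Q : PowerSeries (ZMod 2)) := by
    have h4 := congrArg (fun p : (ZMod 2)[X] => (p : PowerSeries (ZMod 2))) hQ
    simp only [Polynomial.coe_sub, Polynomial.coe_one, Polynomial.coe_pow, Polynomial.coe_X,
      Polynomial.coe_mul] at h4
    rw [h4, ← mul_assoc, GG_mul, one_mul]
  have h5 := congrArg (PowerSeries.coeff (n + PP k)) h3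
  rw [mul_sub, mul_one, map_sub, Polynomial.coeff_coe,
    Polynomial.coeff_eq_zero_of_natDegree_lt (by omega), PowerSeries.coeff_mul_X_pow] at h5
  unfold GG at h5
  rw [PowerSeries.coeff_mk, PowerSeries.coeff_mk] at h5
  exact sub_eq_zero.mp h5

theorem rp_add_mul_PP (k : ℕ) (hk : 1 ≤ k) (n m : ℕ) :
    ((rp k (n + PP k * m) : ℕ) : ZMod 2) = ((rp k n : ℕ) : ZMod 2) := by
  induction m with
  | zero => simp
  | succ m ih =>
    rw [show n + PP k * (m + 1) = (n + PP k * m) + PP k by ring, rp_add_PP k hk, ih]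

/-- The two-sided periodic sequence of parities. -/
def cc (k : ℕ) (n : ℤ) : ZMod 2 := ((rp k (n % (PP k : ℤ)).toNat : ℕ) : ZMod 2)

theorem cc_periodic (k : ℕ) (n : ℤ) : cc k (n + PP k) = cc k n := by
  unfold cc
  rw [Int.add_emod_right]

theorem cc_nat {k : ℕ} (hk : 1 ≤ k) (n : ℕ) : cc k (n : ℤ) = ((rp k n : ℕ) : ZMod 2) := by
  unfold cc
  have h1 : ((n : ℤ) % (PP k : ℤ)).toNat = n % PP k := by
    rw [← Int.natCast_mod, Int.toNat_natCast]
  rw [h1]
  conv_rhs => rw [← Nat.mod_add_div n (PP k)]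
  rw [rp_add_mul_PP k hk]

theorem periodic_mul {α : Type*} {f : ℤ → α} {P : ℤ} (h : ∀ n, f (n + P) = f n) (n : ℤ) (m : ℕ) :
    f (n + P * m) = f n := by
  induction m with
  | zero => simp
  | succ m ih =>
    push_cast
    rw [show n + P * (m + 1) = (n + P * m) + P by ring, h, ih]

theorem periodic_mul_int {α : Type*} {f : ℤ → α} {P : ℤ} (h : ∀ n, f (n + P) = f n) (n m : ℤ) :
    f (n + P * m) = f n := by
  obtain ⟨a, rfl | rfl⟩ := m.eq_nat_or_neg
  · exact periodic_mul h n a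
  · have := periodic_mul h (n + P * (-a)) a
    rw [show n + P * -↑a + P * ↑a = n by ring] at this
    exact this.symm

/-- Two periodic functions agreeing far out agree everywhere. -/
theorem eq_of_eventually {α : Type*} {f g : ℤ → α} {P : ℕ} (hP : 0 < P)
    (hf : ∀ n, f (n + P) = f n) (hg : ∀ n, g (n + P) = g n) {N : ℕ}
    (h : ∀ n : ℕ, N ≤ n → f n = g n) (n : ℤ) : f n = g n := by
  have h1 := periodic_mul hf n (n.natAbs + N)
  have h2 := periodic_mul hg n (n.natAbs + N)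
  rw [← h1, ← h2]
  have hle : (N : ℤ) ≤ n + (P : ℤ) * ((n.natAbs + N : ℕ) : ℤ) := by
    have hP' : (1 : ℤ) ≤ P := by exact_mod_cast hP
    have h3 : ((n.natAbs + N : ℕ) : ℤ) ≤ (P : ℤ) * ((n.natAbs + N : ℕ) : ℤ) := by
      nlinarith [Int.natCast_nonneg (n.natAbs + N)]
    push_cast at h3 ⊢
    have := neg_abs_le n
    omega
  obtain ⟨m, hm⟩ := Int.eq_ofNat_of_zero_le (le_trans (Int.natCast_nonneg N) hle)
  rw [hm] at hle ⊢
  exact h m (by exact_mod_cast hle)

theorem PP_dvd_succ (k : ℕ) : PP k ∣ PP (k + 1) := by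
  unfold PP LL
  refine mul_dvd_mul (pow_dvd_pow 2 (Nat.le_succ k)) ?_
  exact Finset.lcm_mono (Finset.Icc_subset_Icc_right (Nat.le_succ k))

theorem DD_succ (k : ℕ) : DD (k + 1) = DD k * (1 - X ^ (k + 1)) := by
  unfold DD
  rw [Finset.prod_Icc_succ_top (by omega)]

theorem rp_rec (k n : ℕ) :
    ((rp (k + 1) (n + (k + 1)) : ℕ) : ZMod 2) - ((rp (k + 1) n : ℕ) : ZMod 2) =
      ((rp k (n + (k + 1)) : ℕ) : ZMod 2) := by
  have h1 := GG_mul (k + 1)
  rw [DD_succ] at h1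
  simp only [Polynomial.coe_sub, Polynomial.coe_one, Polynomial.coe_pow, Polynomial.coe_X,
      Polynomial.coe_mul] at h1
  have h2 : GG (k + 1) * (1 - PowerSeries.X ^ (k + 1)) = GG k := by
    have h3 := GG_mul k
    calc GG (k + 1) * (1 - PowerSeries.X ^ (k + 1))
        = GG (k + 1) * (1 - PowerSeries.X ^ (k + 1)) *
          (GG k * ((DD k : (ZMod 2)[X]) : PowerSeries (ZMod 2))) := by rw [h3, mul_one]
      _ = GG k * (GG (k + 1) * (((DD k : (ZMod 2)[X]) : PowerSeries (ZMod 2)) *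
          (1 - PowerSeries.X ^ (k + 1)))) := by ring
      _ = GG k := by rw [h1, mul_one]
  have h5 := congrArg (PowerSeries.coeff (n + (k + 1))) h2
  rw [mul_sub, mul_one, map_sub, PowerSeries.coeff_mul_X_pow] at h5
  unfold GG at h5
  rw [PowerSeries.coeff_mk, PowerSeries.coeff_mk, PowerSeries.coeff_mk] at h5
  exact h5

theorem cc_rec {k : ℕ} (hk : 1 ≤ k) (n : ℤ) :
    cc (k + 1) n - cc (k + 1) (n - (k + 1 : ℕ)) = cc k n := by
  have hper : ∀ n : ℤ, cc (k + 1) (n + PP (k + 1)) = cc (k + 1) n := cc_periodic (k + 1)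
  refine eq_of_eventually (P := PP (k + 1)) (N := k + 1)
    (f := fun n => cc (k + 1) n - cc (k + 1) (n - (k + 1 : ℕ))) (PP_pos _) ?_ ?_ ?_ n
  · intro n
    show cc (k + 1) (n + PP (k + 1)) - cc (k + 1) (n + PP (k + 1) - (k + 1 : ℕ)) = _
    rw [hper, show n + (PP (k + 1) : ℤ) - (k + 1 : ℕ) = (n - (k + 1 : ℕ)) + PP (k + 1) by ring,
      hper]
  · intro n
    obtain ⟨m, hm⟩ := PP_dvd_succ k
    rw [hm]
    push_cast
    exact periodic_mul (f := cc k) (cc_periodic k) n m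
  · intro n hn
    obtain ⟨m, rfl⟩ := Nat.exists_eq_add_of_le hn
    show cc (k + 1) ((k + 1 + m : ℕ) : ℤ) - cc (k + 1) (((k + 1 + m : ℕ) : ℤ) - (k + 1 : ℕ)) = _
    rw [show (((k + 1 + m : ℕ) : ℤ) - (k + 1 : ℕ)) = (m : ℕ) by push_cast; ring,
      cc_nat (by omega), cc_nat (by omega), cc_nat hk, add_comm (k + 1) m]
    exact rp_rec k m

theorem act_one_sub_cc {k : ℕ} (hk : 1 ≤ k) : act (1 - X ^ (k + 1)) (cc (k + 1)) = cc k := by
  funext n
  rw [act_one_sub_X_pow]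
  have := cc_rec hk n
  exact_mod_cast this

/-- Going down `h` steps. -/
theorem act_down {k : ℕ} (hk : 1 ≤ k) (h : ℕ) :
    act (∏ i ∈ Finset.range h, (1 - X ^ (k + h - i))) (cc (k + h)) = cc k := by
  induction h with
  | zero => simp [act_one]
  | succ h ih =>
    rw [Finset.prod_range_succ']
    rw [act_mul]
    have h1 : act (1 - X ^ (k + (h + 1) - 0)) (cc (k + (h + 1))) = cc (k + h) := by
      have := act_one_sub_cc (k := k + h) (by omega)
      rw [Nat.sub_zero]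
      exact this
    rw [h1]
    have h2 : ∏ i ∈ Finset.range h, (1 - X ^ (k + (h + 1) - (i + 1)) : (ZMod 2)[X]) =
        ∏ i ∈ Finset.range h, (1 - X ^ (k + h - i)) := by
      refine Finset.prod_congr rfl fun i _ => ?_
      congr 2
      omega
    rw [h2]
    exact ih

/-- For `n ≥ natDegree B` the action of `B` on `cc k` is the coefficient of `B * GG k`. -/
theorem act_cc_eq_coeff {k : ℕ} (hk : 1 ≤ k) (B : (ZMod 2)[X]) {n : ℕ} (hn : B.natDegree ≤ n) :
    act B (cc k) (n : ℤ) = PowerSeries.coeff n ((B : PowerSeries (ZMod 2)) * GG k) := by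
  rw [act_apply, PowerSeries.coeff_mul, Finset.Nat.sum_antidiagonal_eq_sum_range_succ_mk]
  rw [← Finset.sum_subset (Finset.range_mono (Nat.succ_le_succ hn))]
  · refine Finset.sum_congr rfl fun i hi => ?_
    have hi' : i ≤ n := by
      have := Finset.mem_range.mp hi
      omega
    rw [Polynomial.coeff_coe]
    unfold GG
    rw [PowerSeries.coeff_mk, show ((n : ℤ) - (i : ℤ)) = ((n - i : ℕ) : ℤ) by
      rw [Nat.cast_sub hi'], cc_nat hk]
  · intro i hi hi2
    have h1 : B.natDegree < i := by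
      have := Finset.mem_range.not.mp hi2
      omega
    rw [Polynomial.coeff_coe, Polynomial.coeff_eq_zero_of_natDegree_lt h1, zero_mul]

theorem act_DD_cc {k : ℕ} (hk : 1 ≤ k) : act (DD k) (cc k) = 0 := by
  funext n
  refine eq_of_eventually (P := PP k) (N := (DD k).natDegree + 1)
    (f := act (DD k) (cc k)) (PP_pos _) ?_ ?_ ?_ n
  · exact act_periodic (cc_periodic k)
  · intro n; rfl
  · intro n hn
    rw [act_cc_eq_coeff hk _ (by omega), mul_comm, GG_mul, PowerSeries.coeff_one,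
      if_neg (by omega)]
    rfl

theorem DD_dvd_of_act_eq_zero {k : ℕ} (hk : 1 ≤ k) {B : (ZMod 2)[X]}
    (h : act B (cc k) = 0) : DD k ∣ B := by
  refine DD_dvd_of_eventually (N := B.natDegree) fun n hn => ?_
  rw [← act_cc_eq_coeff hk B hn, h]
  rfl

end Pool.Agent.H557
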