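import Pool.Agent.H557.BadPair
import Pool.Agent.H557.Primes

/-!
Counting: in a window `[K, K+H]` at most `L*W` values of `k` have many bad primes.
-/

namespace Pool.Agent.H557

open Polynomial Finset

theorem nongeneric_card {κ a₀ b₀ : ℕ} (S : Finset ℕ) (hprime : ∀ ℓ ∈ S, ℓ.Prime)
    (hlow : ∀ ℓ ∈ S, κ < 2 * ℓ) (hb : ∀ ℓ ∈ S, b₀ < ℓ) (hbκ : b₀ < κ) (hκ : 4 * (a₀ + 1) ≤ κ)
    (hng : ∀ ℓ ∈ S, ¬ Generic κ ℓ a₀ b₀) : S.card ≤ a₀ * (2 * b₀ + 1) := by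
  classical
  have hch : ∀ ℓ : ℕ, ∃ p : ℤ × ℤ, ℓ ∈ S → (1 ≤ p.1 ∧ p.1 ≤ a₀ ∧ -(b₀ : ℤ) ≤ p.2 ∧ p.2 ≤ b₀ ∧
      (ℓ : ℤ) ∣ p.1 * κ - p.2) := by
    intro ℓ
    by_cases hℓ : ℓ ∈ S
    · have h1 := hng ℓ hℓ
      unfold Generic at h1
      push Not at h1
      obtain ⟨a, b, ha, hb', hab, hne⟩ := h1
      have hdvd : (ℓ : ℤ) ∣ a * κ - b := by
        apply (ZMod.intCast_zmod_eq_zero_iff_dvd _ _).mp
        push_cast
        rw [hab, sub_self]
      rw [abs_le] at ha hb'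
      rcases lt_trichotomy a 0 with h0 | h0 | h0
      · refine ⟨(-a, -b), fun _ => ⟨by show 1 ≤ -a; omega, by show -a ≤ a₀; omega,
          by show -(b₀ : ℤ) ≤ -b; omega, by show -b ≤ b₀; omega, ?_⟩⟩
        show (ℓ : ℤ) ∣ -a * κ - -b
        rw [show -a * (κ : ℤ) - -b = -(a * κ - b) by ring]
        exact (dvd_neg).mpr hdvd
      · exfalso
        apply hne h0
        rw [h0, zero_mul, zero_sub] at hdvd
        have h2 : (ℓ : ℤ) ∣ b := (dvd_neg).mp hdvd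
        refine Int.eq_zero_of_abs_lt_dvd h2 ?_
        have h3 := hb ℓ hℓ
        rw [abs_lt]
        constructor <;> omega
      · exact ⟨(a, b), fun _ => ⟨by show 1 ≤ a; omega, ha.2, hb'.1, hb'.2, hdvd⟩⟩
    · exact ⟨(0, 0), fun h => absurd h hℓ⟩
  choose p hp using hch
  have hcard : ((Finset.Icc (1 : ℤ) a₀) ×ˢ (Finset.Icc (-(b₀ : ℤ)) b₀)).card =
      a₀ * (2 * b₀ + 1) := by
    rw [Finset.card_product, Int.card_Icc, Int.card_Icc]
    congr 1
    · simp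
    · have : (b₀ : ℤ) + 1 - -(b₀ : ℤ) = ((2 * b₀ + 1 : ℕ) : ℤ) := by push_cast; ring
      rw [this, Int.toNat_natCast]
  rw [← hcard]
  refine Finset.card_le_card_of_injOn p ?_ ?_
  · intro ℓ hℓ
    obtain ⟨h1, h2, h3, h4, -⟩ := hp ℓ hℓ
    rw [Finset.mem_coe, Finset.mem_product, Finset.mem_Icc, Finset.mem_Icc]
    exact ⟨⟨h1, h2⟩, ⟨h3, h4⟩⟩
  · intro ℓ hℓ ℓ' hℓ' heq
    have hℓm : ℓ ∈ S := hℓ
    have hℓm' : ℓ' ∈ S := hℓ'
    by_contra hne
    obtain ⟨h1, h2, h3, h4, h5⟩ := hp ℓ hℓm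
    obtain ⟨-, -, -, -, h5'⟩ := hp ℓ' hℓm'
    rw [← heq] at h5'
    have hcop : IsCoprime (ℓ : ℤ) (ℓ' : ℤ) := by
      rw [Nat.isCoprime_iff_coprime]
      exact (Nat.coprime_primes (hprime ℓ hℓm) (hprime ℓ' hℓm')).mpr hne
    have h6 : (ℓ : ℤ) * ℓ' ∣ (p ℓ).1 * κ - (p ℓ).2 := hcop.mul_dvd h5 h5'
    have h7 : (0 : ℤ) < (p ℓ).1 * κ - (p ℓ).2 := by
      have : (κ : ℤ) ≤ (p ℓ).1 * κ := by nlinarith [Int.natCast_nonneg κ]
      omega
    have h8 := Int.le_of_dvd h7 h6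
    have h9 : (p ℓ).1 * κ ≤ (a₀ : ℤ) * κ := mul_le_mul_of_nonneg_right h2 (Int.natCast_nonneg κ)
    have h10 : (κ : ℤ) + 1 ≤ 2 * ℓ := by
      have := hlow ℓ hℓm
      omega
    have h11 : (κ : ℤ) + 1 ≤ 2 * ℓ' := by
      have := hlow ℓ' hℓm'
      omega
    have h12 : ((κ : ℤ) + 1) * (κ + 1) ≤ (2 * ℓ) * (2 * ℓ') :=
      mul_le_mul h10 h11 (by omega) (by omega)
    have h13 : (4 * ((a₀ : ℤ) + 1)) * κ ≤ κ * κ := by
      apply mul_le_mul_of_nonneg_right _ (Int.natCast_nonneg κ)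
      exact_mod_cast hκ
    have h14 : (b₀ : ℤ) < κ := by exact_mod_cast hbκ
    nlinarith

theorem Generic.mono {κ ℓ a b a' b' : ℕ} (h : Generic κ ℓ a b) (ha : a' ≤ a) (hb : b' ≤ b) :
    Generic κ ℓ a' b' := by
  intro x y hx hy hxy
  refine h x y (hx.trans ?_) (hy.trans ?_) hxy
  · exact_mod_cast ha
  · exact_mod_cast hb

open scoped Classical in
/-- Two exceptional `k`'s in a window are closer than `L * W`. -/
theorem exceptional_close {K H L W D k h : ℕ} (S : Finset ℕ) (hprime : ∀ ℓ ∈ S, ℓ.Prime)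
    (hlow : ∀ ℓ ∈ S, K + H < 2 * ℓ) (hup : ∀ ℓ ∈ S, ℓ ≤ K) (hD : 4 * D ≤ K)
    (hV : 1 ≤ L * W) (hH : 1 ≤ H) (hcard : 20 * (L * W) ^ 2 * H ^ 3 ≤ S.card)
    (hk : K ≤ k) (hkh : k + h ≤ K + H)
    (h0 : 3 * S.card < 4 * {ℓ ∈ S | Bad L W D k ℓ}.card)
    (h1 : 3 * S.card < 4 * {ℓ ∈ S | Bad L W D (k + h) ℓ}.card) : h < L * W := by
  by_contra hge
  push Not at hge
  set V := L * W with hVdef
  have hScard : S.card ≤ K := by
    have : S ⊆ Finset.Icc 1 K := by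
      intro ℓ hℓ
      rw [Finset.mem_Icc]
      exact ⟨(hprime ℓ hℓ).one_le, hup ℓ hℓ⟩
    have := Finset.card_le_card this
    simpa using this
  have hhH : h ≤ H := by omega
  -- numeric facts
  have n1 : V * H ≤ V ^ 2 * H ^ 3 := by
    calc V * H = V * H * 1 := by ring
      _ ≤ V * H * (V * H ^ 2) := Nat.mul_le_mul_left _ (Nat.one_le_iff_ne_zero.mpr (by positivity))
      _ = V ^ 2 * H ^ 3 := by ring
  have n2 : V * H * H ≤ V ^ 2 * H ^ 3 := by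
    calc V * H * H = V * H * H * 1 := by ring
      _ ≤ V * H * H * (V * H) := Nat.mul_le_mul_left _ (Nat.one_le_iff_ne_zero.mpr (by positivity))
      _ = V ^ 2 * H ^ 3 := by ring
  have n3 : V * H ^ 3 ≤ V ^ 2 * H ^ 3 := by
    calc V * H ^ 3 = V * H ^ 3 * 1 := by ring
      _ ≤ V * H ^ 3 * V := Nat.mul_le_mul_left _ hV
      _ = V ^ 2 * H ^ 3 := by ring
  have n4 : 1 ≤ V ^ 2 * H ^ 3 := Nat.one_le_iff_ne_zero.mpr (by positivity)
  have n5 : 20 * (V ^ 2 * H ^ 3) ≤ K := by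
    calc 20 * (V ^ 2 * H ^ 3) = 20 * V ^ 2 * H ^ 3 := by ring
      _ ≤ S.card := hcard
      _ ≤ K := hScard
  -- the common bad primes
  set B0 := {ℓ ∈ S | Bad L W D k ℓ} with hB0
  set B1 := {ℓ ∈ S | Bad L W D (k + h) ℓ} with hB1
  have hcap : (B0 ∪ B1).card ≤ S.card := by
    apply Finset.card_le_card
    exact Finset.union_subset (Finset.filter_subset _ _) (Finset.filter_subset _ _)
  have hie := Finset.card_union_add_card_inter B0 B1
  have hbig : S.card < 2 * (B0 ∩ B1).card := by omega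
  have hng : (B0 ∩ B1).card ≤ 2 * (V * h) * (2 * (2 * (V * h * h)) + 1) := by
    have hn6 : V * h ≤ V * H := Nat.mul_le_mul_left _ hhH
    have hn7 : V * h * h ≤ V * H * H := Nat.mul_le_mul hn6 hhH
    refine nongeneric_card (κ := k + h) (a₀ := 2 * (V * h)) (b₀ := 2 * (V * h * h)) (B0 ∩ B1)
      ?_ ?_ ?_ ?_ ?_ ?_
    · intro ℓ hℓ
      exact hprime ℓ (Finset.mem_filter.mp (Finset.mem_inter.mp hℓ).1).1
    · intro ℓ hℓ
      have := hlow ℓ (Finset.mem_filter.mp (Finset.mem_inter.mp hℓ).1).1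
      omega
    · intro ℓ hℓ
      have := hlow ℓ (Finset.mem_filter.mp (Finset.mem_inter.mp hℓ).1).1
      omega
    · omega
    · omega
    · intro ℓ hℓ hgen
      obtain ⟨hℓ0, hℓ1⟩ := Finset.mem_inter.mp hℓ
      obtain ⟨hℓS, hbad0⟩ := Finset.mem_filter.mp hℓ0
      obtain ⟨-, hbad1⟩ := Finset.mem_filter.mp hℓ1
      have hp := hprime ℓ hℓS
      have hlo := hlow ℓ hℓS
      have hodd : Odd ℓ := hp.odd_of_ne_two (by omega)
      have hsz : V * ((h + 1) * (h * h + 1)) + V < ℓ := by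
        have hn8 : (h + 1) * (h * h + 1) ≤ 4 * H ^ 3 := by
          have e1 : h + 1 ≤ 2 * H := by omega
          have e2 : h * h + 1 ≤ 2 * (H * H) := by
            have := Nat.mul_le_mul hhH hhH
            have h3 : 1 ≤ H * H := Nat.one_le_iff_ne_zero.mpr (by positivity)
            omega
          calc (h + 1) * (h * h + 1) ≤ (2 * H) * (2 * (H * H)) := Nat.mul_le_mul e1 e2
            _ = 4 * H ^ 3 := by ring
        have hn9 : V * ((h + 1) * (h * h + 1)) ≤ 4 * (V * H ^ 3) := by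
          calc V * ((h + 1) * (h * h + 1)) ≤ V * (4 * H ^ 3) := Nat.mul_le_mul_left _ hn8
            _ = 4 * (V * H ^ 3) := by ring
        have hn10 : V ≤ V * H := Nat.le_mul_of_pos_right _ hH
        omega
      have := bad_pair (L := L) (W := W) (D := D) (k := k) (h := h) (ℓ := ℓ) hp.one_lt hodd
        ((hup ℓ hℓS).trans hk) (by omega) hV hbad0 hbad1 hgen hsz
      omega
  have hlast : 2 * (2 * (V * h) * (2 * (2 * (V * h * h)) + 1)) ≤ 20 * V ^ 2 * H ^ 3 := by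
    have hn6 : V * h ≤ V * H := Nat.mul_le_mul_left _ hhH
    have hn7 : V * h * h ≤ V * H * H := Nat.mul_le_mul hn6 hhH
    have hn8 : 1 ≤ V * H * H := Nat.one_le_iff_ne_zero.mpr (by positivity)
    calc 2 * (2 * (V * h) * (2 * (2 * (V * h * h)) + 1))
        ≤ 2 * (2 * (V * H) * (5 * (V * H * H))) := by
          apply Nat.mul_le_mul_left
          apply Nat.mul_le_mul (Nat.mul_le_mul_left _ hn6)
          omega
      _ = 20 * V ^ 2 * H ^ 3 := by ring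
  omega

open scoped Classical in
/-- The exceptional set of a window has at most `L * W` elements. -/
theorem exceptional_card {K H L W D : ℕ} (S : Finset ℕ) (hprime : ∀ ℓ ∈ S, ℓ.Prime)
    (hlow : ∀ ℓ ∈ S, K + H < 2 * ℓ) (hup : ∀ ℓ ∈ S, ℓ ≤ K) (hD : 4 * D ≤ K)
    (hV : 1 ≤ L * W) (hH : 1 ≤ H) (hcard : 20 * (L * W) ^ 2 * H ^ 3 ≤ S.card) :
    {k ∈ Finset.Icc K (K + H) | 3 * S.card < 4 * {ℓ ∈ S | Bad L W D k ℓ}.card}.card ≤ L * W := by
  set E := {k ∈ Finset.Icc K (K + H) | 3 * S.card < 4 * {ℓ ∈ S | Bad L W D k ℓ}.card} with hE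
  rcases E.eq_empty_or_nonempty with h0 | hne
  · rw [h0]; simp
  · set m := E.min' hne with hm
    have hmE : m ∈ E := Finset.min'_mem _ _
    have hsub : E ⊆ Finset.Ico m (m + L * W) := by
      intro k hk
      have hmk : m ≤ k := Finset.min'_le _ _ hk
      rw [Finset.mem_Ico]
      refine ⟨hmk, ?_⟩
      obtain ⟨h, rfl⟩ := Nat.exists_eq_add_of_le hmk
      rw [hE, Finset.mem_filter, Finset.mem_Icc] at hk
      have hm2 : m ∈ {k ∈ Finset.Icc K (K + H) | 3 * S.card < 4 * {ℓ ∈ S | Bad L W D k ℓ}.card} := hmE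
      rw [Finset.mem_filter, Finset.mem_Icc] at hm2
      have := exceptional_close S hprime hlow hup hD hV hH hcard hm2.1.1 hk.1.2 hm2.2 hk.2
      omega
    calc E.card ≤ (Finset.Ico m (m + L * W)).card := Finset.card_le_card hsub
      _ = L * W := by simp

end Pool.Agent.H557
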